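import Pool.Agent.L5helper3.RA.Tower
import Pool.Agent.R338.CU.Cnt

/-!
# Finite `3`-class field towers over the fields ramified at 45 percent of the triples of primes

`p = 3`. For at least `328/729` of the triples of primes congruent to `4` or `7` modulo `9`, taken
from arbitrary sets, all number fields `K` which are contained in Galois extensions of `ℚ` of
`3`-power degree, unramified outside the triple (for example the four cyclic cubic fields which are
ramified exactly at the three primes, and all their extensions of this kind), have finite `3`-class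
field towers, of bounded degree, so that the weak unramified Fontaine-Mazur conjecture holds for
these fields. Also the maximal `3`-extension of `K` unramified outside the three primes is finite.

Proof. The criterion is `MP_f68ac8_nt.ThreeTamePrimes` (Pool/Agent/N829/PW), the distribution of the
cubic residue symbols of the primes of arbitrary sets is `Pool/Agent/R338/CU`. A homomorphism from
the Galois group of `K` to a finite `3`-group is extended to the Galois group of `ℚ` by means of the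
normal core of its kernel.
-/

set_option autoImplicit false

open NumberField Matrix IsLocalRing Finset
open scoped Classical

namespace Pool.Agent.Results.MP_ca71b5_nt.FiniteTowers

/-- the absolute Galois group of `ℚ`, with the Krull topology; the absolute Galois group of a number
field `K` is its subgroup `K.fixingSubgroup` -/
abbrev AbsGal : Type := Gal(AlgebraicClosure ℚ/ℚ)

/-- The number field `K` is unramified at all primes that do not lie above a prime number in `T`. -/
def FieldUnramifiedOutside (T : Finset ℕ) (K : IntermediateField ℚ (AlgebraicClosure ℚ)) : Prop :=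
  ∀ P : Ideal (𝓞 (AlgebraicClosure ℚ)), P.IsMaximal →
    (∀ l ∈ T, (l : 𝓞 (AlgebraicClosure ℚ)) ∉ P) →
      ∀ τ : AbsGal, (∀ x : 𝓞 (AlgebraicClosure ℚ), τ • x - x ∈ P) → τ ∈ K.fixingSubgroup

/-- `K` is contained in a finite Galois extension `L` of `ℚ` of `3`-power degree (the absolute
Galois group of `L` is a normal subgroup whose index is a power of `3`) which is unramified outside
`T`. -/
def InTower (T : Finset ℕ) (K : IntermediateField ℚ (AlgebraicClosure ℚ)) : Prop :=
  ∃ L : IntermediateField ℚ (AlgebraicClosure ℚ), K ≤ L ∧ FiniteDimensional ℚ L ∧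
    L.fixingSubgroup.Normal ∧ (∃ k : ℕ, L.fixingSubgroup.index = 3 ^ k) ∧
    FieldUnramifiedOutside T L

/-- The homomorphism `f` from the absolute Galois group of `K` is unramified at all finite primes
which do not lie above a prime number in `T`; this holds if it is unramified everywhere. -/
def UnramifiedOutside (T : Finset ℕ) {K : IntermediateField ℚ (AlgebraicClosure ℚ)} {E : Type}
    [Group E] (f : K.fixingSubgroup →* E) : Prop :=
  ∀ P : Ideal (𝓞 (AlgebraicClosure ℚ)), P.IsMaximal →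
    (∀ l ∈ T, (l : 𝓞 (AlgebraicClosure ℚ)) ∉ P) → ∀ τ : K.fixingSubgroup,
      (∀ x : 𝓞 (AlgebraicClosure ℚ), (τ : AbsGal) • x - x ∈ P) → f τ = 1

/-- Every `ρ g` is unipotent modulo the maximal ideal: some power of `ρ g - 1` has all entries in
the maximal ideal. -/
def ResiduallyUnipotent {G : Type} [Group G] {A : Type} [CommRing A] [IsLocalRing A] {n : ℕ}
    (ρ : G →* GL (Fin n) A) : Prop :=
  ∀ g, ∃ M : ℕ, ∀ i j, (((ρ g : Matrix (Fin n) (Fin n) A) - 1) ^ M) i j ∈ maximalIdeal A

/-- There is an open normal subgroup `N` of index at most `3 ^ 36` of the absolute Galois group of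
`ℚ`, contained in the absolute Galois groups of all `K` with `InTower T K`, on which all continuous
homomorphisms from these groups to finite `3`-groups, and all continuous residually unipotent
representations over Noetherian local rings of residue characteristic `3`, are trivial, if they are
unramified outside `T`. -/
def FiniteTower (T : Finset ℕ) : Prop :=
  ∃ N : Subgroup AbsGal, N.Normal ∧ IsOpen (N : Set AbsGal) ∧ N.index ≤ 3 ^ 36 ∧
    ∀ K : IntermediateField ℚ (AlgebraicClosure ℚ), InTower T K → N ≤ K.fixingSubgroup ∧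
      (∀ (E : Type) [Group E] [Finite E], IsPGroup 3 E → ∀ f : K.fixingSubgroup →* E,
        IsOpen (f.ker : Set K.fixingSubgroup) → UnramifiedOutside T f →
          ∀ g : K.fixingSubgroup, (g : AbsGal) ∈ N → f g = 1) ∧
      ∀ (n : ℕ) (A : Type) [CommRing A] [IsLocalRing A] [IsNoetherianRing A] [TopologicalSpace A],
        IsAdic (maximalIdeal A) → (3 : A) ∈ maximalIdeal A →
        ∀ ρ : K.fixingSubgroup →* GL (Fin n) A, Continuous ρ → ResiduallyUnipotent ρ →
          UnramifiedOutside T ρ → ∀ g : K.fixingSubgroup, (g : AbsGal) ∈ N → ρ g = 1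

/-- `P 0, P 1, P 2` are pairwise disjoint sets of primes congruent to `4` or `7` modulo `9`, the
members of `P i` are at most `X i`, and `1 ≤ z ≤ X i`. -/
def Sets (P : Fin 3 → Finset ℕ) (X : Fin 3 → ℕ) (z : ℕ) : Prop :=
  1 ≤ z ∧ (∀ i, z ≤ X i) ∧
    (∀ i, ∀ p ∈ P i, p.Prime ∧ (p % 9 = 4 ∨ p % 9 = 7) ∧ p ≤ X i) ∧
    ∀ i l, i ≠ l → Disjoint (P i) (P l)

/-- The number of the triples `(p_0, p_1, p_2)`, `p_i ∈ P i`, such that `FiniteTower` holds for
`{p_0, p_1, p_2}`. -/
noncomputable def count (P : Fin 3 → Finset ℕ) : ℝ :=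
  ({p : Fin 3 → ℕ | (∀ i, p i ∈ P i) ∧ FiniteTower (univ.image p)}.ncard : ℝ)

section crit

open Pool.Agent.R338.CU (Tup chi chi_apply chi_ne mem_prs card_prs)
open Pool.Agent.Y703.CX (lam prs)
open Pool.Agent.W569.FM (GF OO InInertia)
open Pool.Agent.N829.PW (Tri Ur SQ)

/-- the class of a prime -/
noncomputable def lev (l : ℕ) : ZMod 3 := (((l - 1) / 3 : ℕ) : ZMod 3)

theorem lev_ne {l : ℕ} (h : l % 9 = 4 ∨ l % 9 = 7) : lev l ≠ 0 := by
  unfold lev
  rw [Ne, ZMod.natCast_eq_zero_iff]
  omega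

/-- the condition, in the entries `a i j` for the symbols `lam (p i) (p j)` -/
def C6 (u0 u1 u2 a01 a02 a10 a12 a20 a21 : ZMod 3) : Prop :=
  a20 * a01 * a12 - a10 * a21 * a02 ≠ 0 ∧
    (u1 * a20 + u0 * a21 = 0 → u2 * a10 + u0 * a12 = 0 → u2 * a01 + u1 * a02 ≠ 0)

instance (u0 u1 u2 a01 a02 a10 a12 a20 a21 : ZMod 3) :
    Decidable (C6 u0 u1 u2 a01 a02 a10 a12 a20 a21) := by
  unfold C6
  infer_instance

/-- the set of the elements of inertia groups outside `T` -/
def UT (T : Finset ℕ) : Set AbsGal :=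
  {τ | ∃ P : Ideal (𝓞 (AlgebraicClosure ℚ)), P.IsMaximal ∧
    (∀ l ∈ T, (l : 𝓞 (AlgebraicClosure ℚ)) ∉ P) ∧
    ∀ x : 𝓞 (AlgebraicClosure ℚ), τ • x - x ∈ P}

theorem UT_conj (T : Finset ℕ) : ∀ u ∈ UT T, ∀ g : AbsGal, g * u * g⁻¹ ∈ UT T := by
  rintro τ ⟨P, hP, hT, hτ⟩ g
  set φ : 𝓞 (AlgebraicClosure ℚ) →+* 𝓞 (AlgebraicClosure ℚ) :=
    MulSemiringAction.toRingHom AbsGal (𝓞 (AlgebraicClosure ℚ)) g⁻¹ with hφ
  have hφx : ∀ x, φ x = g⁻¹ • x := fun x => rfl
  refine ⟨P.comap φ, ?_, fun l hl h => ?_, fun x => ?_⟩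
  · refine Ideal.comap_isMaximal_of_surjective φ fun x => ⟨g • x, ?_⟩
    rw [hφx, inv_smul_smul]
  · rw [Ideal.mem_comap, map_natCast] at h
    exact hT l hl h
  · rw [Ideal.mem_comap, hφx, smul_sub, smul_smul]
    have h1 := hτ (g⁻¹ • x)
    rw [smul_smul] at h1
    rw [← mul_assoc, ← mul_assoc, inv_mul_cancel, one_mul]
    exact h1

theorem crit {p : Fin 3 → ℕ} (hp : Tup p) (h9 : ∀ i, p i % 9 = 4 ∨ p i % 9 = 7)
    (h : C6 (lev (p 0)) (lev (p 1)) (lev (p 2)) (lam (p 0) (p 1)) (lam (p 0) (p 2))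
      (lam (p 1) (p 0)) (lam (p 1) (p 2)) (lam (p 2) (p 0)) (lam (p 2) (p 1))) :
    FiniteTower (univ.image p) := by
  have i3 : Fact (Nat.Prime 3) := ⟨Nat.prime_three⟩
  have hd : ∀ i, 3 ∣ p i - 1 := fun i => by
    have := hp.m3 i
    have := (hp.pr i).two_le
    omega
  have hd9 : ∀ i, ¬ 3 ^ 2 ∣ p i - 1 := fun i => by
    have := h9 i
    have := (hp.pr i).two_le
    norm_num
    omega
  let t : Tri 3 chi :=
    { l := p
      inj := hp.inj
      hl := fun i => ⟨hp.pr i, hd i⟩
      lam := fun i j => lam (p j) (p i)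
      hlam := fun i j hij x hx => by
        rw [chi_apply (hp.pr j) (hp.m3 j) _ hx]
      hΔ := h.1
      hu := fun s hs1 hs hs' u hu e1 e2 e3 => by
        have hs1' : s = 1 := by
          by_contra hne
          have h2 : 2 ≤ s := by omega
          exact hd9 0 ((pow_dvd_pow 3 h2).trans (hs 0))
        subst hs1'
        have hul : ∀ i, u i = lev (p i) := fun i => by
          rw [hu i]
          unfold lev
          rw [pow_one]
        rw [hul, hul] at e1 e2 e3
        exact h.2 e1 e2 e3 }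
  have hT : t.T = univ.image p := rfl
  -- the finite quotients for `ℚ`
  have hex : ∃ N : Subgroup AbsGal, N.Normal ∧ IsOpen (N : Set AbsGal) ∧ N.index ≤ 3 ^ 36 ∧
      ∀ (E : Type) [Group E] [Finite E], IsPGroup 3 E → ∀ f : AbsGal →* E,
        IsOpen (f.ker : Set AbsGal) → (∀ u ∈ UT (univ.image p), f u = 1) →
          ∀ g ∈ (N : Set AbsGal), f g = 1 := by
    obtain ⟨N, hN1, hN2, hN3, hN4⟩ := Pool.Agent.N829.PW.exists_max (K := ℚ) (p := 3)
      (S := SQ 3 t.T) (B := (3 ^ 3) ^ (4 * (2 * 1 + 1)))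
      (fun E _ _ hE f hfs hfo hur =>
        Pool.Agent.N829.PW.tri_fin (by decide) t (M := 1) hd9 hE f hfs hfo hur)
    refine ⟨N, hN1, hN2, hN3.trans (by norm_num), fun E _ _ hE f hfo hfU g hg => ?_⟩
    refine hN4 E hE f hfo (Pool.Agent.N829.PW.ur_of f fun P hP l hl hlP hl' τ hτ => ?_) g hg
    refine hfU τ ⟨P, hP, fun q hq hqP => ?_, hτ⟩
    have hqp : q.Prime := by
      obtain ⟨i, -, rfl⟩ := mem_image.1 hq
      exact hp.pr i
    have hql := Pool.Agent.N829.PW.prime_unique hP hl hqp hlP hqP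
    subst hql
    rcases hl' with h1 | h1
    · obtain ⟨i, -, hi⟩ := mem_image.1 hq
      have := hp.m3 i
      omega
    · exact h1.2 (hT ▸ hq)
  obtain ⟨N, hN1, hN2, hN3, hkey⟩ := hex
  refine ⟨N, hN1, hN2, hN3, fun K hK => ?_⟩
  obtain ⟨L, hKL, hLf, hLn, ⟨k, hLi⟩, hLu⟩ := hK
  have : CompactSpace AbsGal := inferInstanceAs (CompactSpace (GF ℚ))
  have hLH : L.fixingSubgroup ≤ K.fixingSubgroup := IntermediateField.fixingSubgroup_antitone hKL
  have hLo : IsOpen (L.fixingSubgroup : Set AbsGal) := IntermediateField.fixingSubgroup_isOpen L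
  have hLU : UT (univ.image p) ⊆ (L.fixingSubgroup : Set AbsGal) := by
    rintro τ ⟨P, hP, h1, h2⟩
    exact hLu P hP h1 τ h2
  have hmain : ∀ (E : Type) [Group E] [Finite E], IsPGroup 3 E → ∀ f : K.fixingSubgroup →* E,
      IsOpen (f.ker : Set K.fixingSubgroup) →
      (∀ u : K.fixingSubgroup, (u : AbsGal) ∈ UT (univ.image p) → f u = 1) →
        (N : Set AbsGal) ⊆ (L.fixingSubgroup : Set AbsGal) ∧
          ∀ g : K.fixingSubgroup, (g : AbsGal) ∈ (N : Set AbsGal) → f g = 1 :=
    fun E _ _ hE f hf hfU =>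
      Pool.Agent.L5helper3.RA.core (UT_conj _) hkey hLH hLo hLi hLU hE f hf hfU
  have hNK : N ≤ K.fixingSubgroup := by
    have h1 := (hmain Unit (fun x => ⟨0, Subsingleton.elim _ _⟩) 1
      (by rw [MonoidHom.ker_one]; exact isOpen_univ) (fun _ _ => rfl)).1
    exact fun g hg => hLH (h1 hg)
  refine ⟨hNK, fun E _ _ hE f hf hfU g hg => ?_, ?_⟩
  · refine (hmain E hE f hf ?_).2 g hg
    rintro u ⟨P, hP, h1, h2⟩
    exact hfU P hP h1 u h2
  · intro n A _ _ _ _ hA h3 ρ hρ hres hur g hg
    have hKc : CompactSpace K.fixingSubgroup := by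
      have hKo : IsOpen (K.fixingSubgroup : Set AbsGal) := Subgroup.isOpen_mono hLH hLo
      exact isCompact_iff_compactSpace.1 (Subgroup.isClosed_of_isOpen _ hKo).isCompact
    refine Pool.Agent.L5helper3.RA.rep_of_fin (p := 3)
      (U := {u : K.fixingSubgroup | (u : AbsGal) ∈ UT (univ.image p)})
      (N := {g : K.fixingSubgroup | (g : AbsGal) ∈ N}) ?_ hA (by exact_mod_cast h3) hρ
      (fun g => (hres g).imp fun M h => h) ?_ g hg
    · intro E _ _ hE f hf hfU g hg
      exact (hmain E hE f hf fun u hu => hfU u hu).2 g hg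
    · rintro u ⟨P, hP, h1, h2⟩
      exact hur P hP h1 u h2

/-- the condition, as a condition on the matrix -/
def Q6 (u : Fin 3 → ZMod 3) (α : prs (univ : Finset (Fin 3)) → ZMod 3) : Prop :=
  C6 (u 0) (u 1) (u 2) (α ⟨(0, 1), mem_prs (by decide)⟩) (α ⟨(0, 2), mem_prs (by decide)⟩)
    (α ⟨(1, 0), mem_prs (by decide)⟩) (α ⟨(1, 2), mem_prs (by decide)⟩)
    (α ⟨(2, 0), mem_prs (by decide)⟩) (α ⟨(2, 1), mem_prs (by decide)⟩)

theorem card6 (u : Fin 3 → ZMod 3) (hu : ∀ i, u i ≠ 0) : (univ.filter (Q6 u)).card = 328 := by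
  set e : Fin 6 → prs (univ : Finset (Fin 3)) :=
    ![⟨(0, 1), mem_prs (by decide)⟩, ⟨(0, 2), mem_prs (by decide)⟩,
      ⟨(1, 0), mem_prs (by decide)⟩, ⟨(1, 2), mem_prs (by decide)⟩,
      ⟨(2, 0), mem_prs (by decide)⟩, ⟨(2, 1), mem_prs (by decide)⟩] with he
  have hinj : Function.Injective e := by
    intro i j h
    have h1 := congrArg (fun t : prs (univ : Finset (Fin 3)) => t.1) h
    fin_cases i <;> fin_cases j <;> simp_all
  have hb : Function.Bijective e := by
    rw [Fintype.bijective_iff_injective_and_card]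
    refine ⟨hinj, ?_⟩
    rw [Fintype.card_fin, Fintype.card_coe, card_prs]
  set E := Equiv.ofBijective e hb with hE
  have h1 : (univ.filter (Q6 u)).card =
      (univ.filter fun β : Fin 6 → ZMod 3 =>
        C6 (u 0) (u 1) (u 2) (β 0) (β 1) (β 2) (β 3) (β 4) (β 5)).card := by
    refine card_equiv (Equiv.arrowCongr E.symm (Equiv.refl (ZMod 3))) ?_
    intro α
    simp only [mem_filter, mem_univ, true_and, Equiv.arrowCongr_apply, Equiv.symm_symm,
      Function.comp, Equiv.refl_apply]
    rfl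
  rw [h1]
  have h2 : ∀ u0 u1 u2 : ZMod 3, u0 ≠ 0 → u1 ≠ 0 → u2 ≠ 0 →
      (univ.filter fun β : Fin 6 → ZMod 3 =>
        C6 u0 u1 u2 (β 0) (β 1) (β 2) (β 3) (β 4) (β 5)).card = 328 := by
    decide +kernel
  convert h2 (u 0) (u 1) (u 2) (hu 0) (hu 1) (hu 2)

end crit

/-- **Finite towers for 45 percent of the triples of primes.** There is a constant `C` such that,
for all disjoint sets `P 0, P 1, P 2` of primes as in `Sets`, `FiniteTower` holds for at least
`(328/729) ∏ #P i - C z ^ (-1/12) ∏ X i` of the triples in `P 0 × P 1 × P 2`. -/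
theorem result : ∃ C : ℝ, ∀ (P : Fin 3 → Finset ℕ) (X : Fin 3 → ℕ) (z : ℕ), Sets P X z →
    328 / 729 * ∏ i, ((P i).card : ℝ) - C * (z : ℝ) ^ (-(1 / 12 : ℝ)) * ∏ i, (X i : ℝ) ≤
      count P := by
  obtain ⟨C, hC1, hC⟩ := Pool.Agent.R338.CU.cls_lower
  refine ⟨3 ^ 9 * C, fun P X z hS => ?_⟩
  have toS : Pool.Agent.R338.CU.Sets P X z :=
    ⟨hS.1, hS.2.1, fun i p hp => ⟨(hS.2.2.1 i p hp).1, by
      have := (hS.2.2.1 i p hp).2.1
      omega, (hS.2.2.1 i p hp).2.2⟩, hS.2.2.2⟩
  have cnt : count P =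
      (((Fintype.piFinset P).filter fun p => FiniteTower (univ.image p)).card : ℝ) := by
    unfold count
    rw [← Set.ncard_coe_finset]
    congr 2
    ext p
    simp
  rw [cnt]
  have h1 := hC 3 P X z toS (ZMod 3) lev Q6 (328 / 729) (fun u hu => by
      have h2 := card6 u fun i => by
        obtain ⟨p, hp, hpu⟩ := hu i
        rw [← hpu]
        exact lev_ne (hS.2.2.1 i p hp).2.1
      refine le_of_eq ?_
      have h3 : ((univ.filter (Q6 u)).card : ℝ) = 328 := by exact_mod_cast h2
      rw [← h3]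
      norm_num)
    (fun p => FiniteTower (univ.image p))
    (fun p hp hQ => crit (toS.tup hp)
      (fun i => (hS.2.2.1 i _ (Fintype.mem_piFinset.1 hp i)).2.1) hQ)
  refine le_trans (le_of_eq ?_) h1
  rw [ZMod.card]
  push_cast
  norm_num
  ring

end Pool.Agent.Results.MP_ca71b5_nt.FiniteTowers
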