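import Pool.Agent.L5helper61.WF.All

/-!
# The weak unramified Fontaine-Mazur conjecture over arbitrary complete local rings

Question Q1 is about continuous representations `G_K → GL_n(ℤ_p)`, unramified at all finite primes,
whose image is a pro-`p` group.  We show that Q1 for a prime `p` is equivalent to a statement about
all continuous representations `ρ : G_K → GL_n(A)`, unramified at all finite primes, over all
complete Noetherian local rings `A` with finite residue field of characteristic `p`, with arbitrary
residual representation: the image of `ρ` in `GL_n(A[1/p])` is finite. So the image of `ρ` is finite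
if `p` is not a zero divisor in `A`.  The ring `A` may have any dimension, several components and
nilpotent elements; no representation over a ring of characteristic `p` is used.

The main point of the proof is a rigidity theorem. Let `P` be a prime ideal of `A` with `p ∉ P` such
that `ρ` is trivial modulo `P` on an open subgroup `U`; then `ρ(U)` is trivial in
`GL_n(A_P)`. Indeed, let `I_k` be the inverse image in `A` of the `k`-th power of the maximal ideal
of `A_P`. If `ρ(U)` is trivial modulo `I_k`, then `g ↦ ρ(g) - 1` is a homomorphism from `U` to
the finitely generated module of the matrices over `I_k/I_{k+1}`. It is trivial on an open subgroup,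
because no finite extension of `K` has an unramified `ℤ_p`-extension (this follows from Q1, applied
to unipotent matrices of size two), and `I_k/I_{k+1}` has no torsion.  Hence a single point of
characteristic zero on each irreducible component of `Spec A[1/p]` is enough, and there are such
points with `A/P` finite and free over `ℤ_p`.  The passage from the reduced ring to `A[1/p]`, and the
theorem of Hermite and Minkowski, are in `Pool.Agent.L5helper66.TF`.
-/

set_option autoImplicit false

open NumberField IsLocalRing

attribute [-instance] DivisionRing.toRatAlgebra

namespace Pool.Agent.Results.MP_ca71b5_nt.InvertingP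

/-- the absolute Galois group of the field `F`, with the Krull topology -/
abbrev AbsGal (F : Type) [Field F] : Type := Gal(AlgebraicClosure F/F)

/-- the ring of all algebraic integers -/
abbrev ZBar : Type := 𝓞 (AlgebraicClosure ℚ)

/-- `τ` lies in the inertia group at `P` -/
def Inertia (P : Ideal ZBar) (τ : AbsGal ℚ) : Prop := ∀ x : ZBar, τ • x - x ∈ P

/-- The homomorphism `f` from the absolute Galois group of `K` is unramified at all finite primes: it
is trivial on all inertia groups. -/
def Unramified (K : IntermediateField ℚ (AlgebraicClosure ℚ)) {E : Type} [Group E]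
    (f : K.fixingSubgroup →* E) : Prop :=
  ∀ P : Ideal ZBar, P.IsMaximal → ∀ τ : K.fixingSubgroup, Inertia P τ → f τ = 1

/-- The image of `f` is a pro-`p` group: the open subgroups of the absolute Galois group of `K` that
contain the kernel of `f` have `p`-power index. -/
def ProPImage (p : ℕ) (K : IntermediateField ℚ (AlgebraicClosure ℚ)) {E : Type} [Group E]
    (f : K.fixingSubgroup →* E) : Prop :=
  ∀ V : Subgroup K.fixingSubgroup, IsOpen (V : Set K.fixingSubgroup) → f.ker ≤ V →
    ∃ k, V.index = p ^ k

/-- Q1 for the prime `p`: for all number fields `K` and all `n`, every continuous representation of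
the absolute Galois group of `K` over `ℤ_p`, unramified at all finite primes and with pro-`p` image,
has finite image. -/
def WeakFontaineMazur (p : ℕ) [Fact p.Prime] : Prop :=
  ∀ K : IntermediateField ℚ (AlgebraicClosure ℚ), FiniteDimensional ℚ K →
    ∀ (n : ℕ) (ρ : K.fixingSubgroup →* GL (Fin n) ℤ_[p]), Continuous ρ → Unramified K ρ →
      ProPImage p K ρ → (Set.range ρ).Finite

/-- the representation over `A[1/p]` defined by `ρ` -/
noncomputable def inverting (p : ℕ) {A : Type} [CommRing A] {n : ℕ} {G : Type} [Group G]
    (ρ : G →* GL (Fin n) A) : G →* GL (Fin n) (Localization.Away (p : A)) :=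
  (Matrix.GeneralLinearGroup.map (algebraMap A (Localization.Away (p : A)))).comp ρ

theorem result (p : ℕ) [Fact p.Prime] :
    WeakFontaineMazur p ↔
      ∀ (A : Type) [CommRing A] [IsLocalRing A] [IsNoetherianRing A] [TopologicalSpace A],
        IsAdic (maximalIdeal A) → IsAdicComplete (maximalIdeal A) A → Finite (ResidueField A) →
        (p : A) ∈ maximalIdeal A →
        ∀ (K : IntermediateField ℚ (AlgebraicClosure ℚ)) [FiniteDimensional ℚ K]
          (n : ℕ) (ρ : K.fixingSubgroup →* GL (Fin n) A), Continuous ρ → Unramified K ρ →
          (Set.range (inverting p ρ)).Finite ∧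
            ((p : A) ∈ nonZeroDivisors A → (Set.range ρ).Finite) := by
  constructor
  · intro h A _ _ _ _ hA hcomp hfin hp K _ n ρ hρ hU
    have h1 := Pool.Agent.L5helper61.WF.main_all (p := p) h K A hA hfin hp n ρ hρ hU
    exact ⟨h1, fun hnz => Pool.Agent.L5helper61.WF.fin_of_nzd
      (Pool.Agent.L5helper61.WF.inj_away hnz) h1⟩
  · intro h K hK n ρ hρ hU _
    refine (h ℤ_[p] (Pool.Agent.L5helper61.WF.isAdic_zp p) inferInstance ?_ ?_ K n ρ hρ hU).2 ?_
    · have e : ResidueField ℤ_[p] ≃+* ZMod p := PadicInt.residueField
      exact Finite.of_equiv _ e.symm.toEquiv
    · rw [PadicInt.maximalIdeal_eq_span_p]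
      exact Ideal.mem_span_singleton_self _
    · rw [mem_nonZeroDivisors_iff_ne_zero]
      exact_mod_cast (Fact.out : p.Prime).ne_zero

end Pool.Agent.Results.MP_ca71b5_nt.InvertingP
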