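import Pool.Agent.Q202.QT.Ker
import Pool.Agent.Q202.QT.DensN
import Pool.Agent.L5helper3.RA.Tower

/-!
# The weak unramified Fontaine-Mazur conjecture for fields ramified at most tuples of primes, all odd `p`

Let `p` be an odd prime; `q₁`, `q₂`, … are primes congruent to `1` modulo `p`, proportions are lower densities among these.

(1) For all `q₁`, for a proportion of at least `1 - 1/p` of the `q₂` and `(1 - 1/p) (1 - 2/p)` of the `q₃` all number fields `K` in
Galois extensions of `ℚ` of `p`-power degree unramified outside `q₁, q₂, q₃` have finite `p`-class field towers, of bounded degree,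
even with ramification at the three primes allowed. So the conjecture holds for these `K` and `p`.

(2) For almost all triples, for nearly half of the quadruples (for rings whose residue field has odd degree), for almost all pairs
together with the prime `p`, and for nearly half of the triples together with `p`: every continuous, residually unipotent
representation of rank two of the Galois group of `ℚ` over a discrete valuation ring of characteristic zero, which is everywhere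
unramified over some number field `K` ramified only at the given primes, has finite image. Here the maximal `p`-extension of `ℚ`
unramified outside the given primes is infinite, apart from the case of triples.

The proof of (1) is the criterion of `MP_f68ac8_nt.ThreeTamePrimes` (Pool/Agent/N829/PW), applied as in `FiniteTowers` (helper3, for
`p = 3`). The proof of (2) evaluates the condition of the starting result `RankTwoExtensions` for three and four primes
(`Pool.Agent.Q202.RT.Np`, `Pool.Agent.Q202.QT.Np4`: a determinant does not vanish; a discriminant is not a square). Both use the joint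
equidistribution of power residue symbols (`Pool.Agent.Q202.QT.densN`, from the theorem of Chebotarev).
-/

set_option autoImplicit false

open NumberField Matrix IsLocalRing

namespace Pool.Agent.Results.MP_ca71b5_nt.MostTuples

open Finset Filter
open Pool.Agent.Results.MP_ca71b5_nt.RankTwoExtensions (FieldUnramifiedOutside UnramifiedOver ResiduallyUnipotent Tame linking
  NoPlane)
open Pool.Agent.Q202.RT Pool.Agent.Q202.QT
open Pool.Agent.W569.TG (lk)

/-- For all finite sets `S` of prime numbers whose members equal to `p` or congruent to `1` modulo `p` are in `T`, for all number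
fields `K` which are unramified outside `S`, for all discrete valuation rings `A` of characteristic `0` with finite residue field
of characteristic `p` (of odd degree over the field with `p` elements if `OddDegree` holds), with the adic topology, every
continuous, residually unipotent `ρ : Gal(ℚbar/ℚ) → GL_2(A)` whose restriction to the absolute Galois group of `K` is unramified
at all finite primes has finite image. -/
def AlwaysFinite (p : ℕ) (OddDegree : Prop) (T : Finset ℕ) : Prop :=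
  ∀ S : Finset ℕ, (∀ l ∈ S, l.Prime) → (∀ l ∈ S, l = p ∨ p ∣ l - 1 → l ∈ T) →
  ∀ (K : IntermediateField ℚ (AlgebraicClosure ℚ)) [FiniteDimensional ℚ K],
    FieldUnramifiedOutside S K →
  ∀ (A : Type) [CommRing A] [IsDomain A] [IsDiscreteValuationRing A] [CharZero A]
    [TopologicalSpace A], IsAdic (maximalIdeal A) → Finite (ResidueField A) →
    (p : A) ∈ maximalIdeal A → (OddDegree → ∃ d : ℕ, Odd d ∧ Nat.card (ResidueField A) = p ^ d) →
  ∀ ρ : Gal(AlgebraicClosure ℚ/ℚ) →* GL (Fin 2) A, Continuous ρ → UnramifiedOver K ρ →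
    ResiduallyUnipotent ρ → (Set.range ρ).Finite

open Classical in
/-- The primes `q ≤ x` with `p ∣ q - 1`. -/
noncomputable def Pr (p x : ℕ) : Finset ℕ := (range (x + 1)).filter fun q => q.Prime ∧ p ∣ q - 1

open Classical in
/-- Among the primes `q ≡ 1 mod p` the lower density of those with the property `R` is at least `s`. -/
def AtLeast (p : ℕ) (s : ℝ) (R : ℕ → Prop) : Prop :=
  ∀ ε : ℝ, 0 < ε → ∀ᶠ x : ℕ in atTop, (s - ε) * ((Pr p x).card : ℝ) ≤ (((Pr p x).filter R).card : ℝ)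

/-- the absolute Galois group of `ℚ`, with the Krull topology; the absolute Galois group of a number field `K` is its subgroup
`K.fixingSubgroup` -/
abbrev AbsGal : Type := Gal(AlgebraicClosure ℚ/ℚ)

/-- `K` is contained in a finite Galois extension `L` of `ℚ` of `p`-power degree (the absolute Galois group of `L` is a normal
subgroup whose index is a power of `p`) which is unramified outside `T`. -/
def InTower (p : ℕ) (T : Finset ℕ) (K : IntermediateField ℚ (AlgebraicClosure ℚ)) : Prop :=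
  ∃ L : IntermediateField ℚ (AlgebraicClosure ℚ), K ≤ L ∧ FiniteDimensional ℚ L ∧
    L.fixingSubgroup.Normal ∧ (∃ k : ℕ, L.fixingSubgroup.index = p ^ k) ∧ FieldUnramifiedOutside T L

/-- The homomorphism `f` from the absolute Galois group of `K` is unramified at all finite primes which do not lie above a prime
number in `T`; this holds if it is unramified everywhere. -/
def HomUnramifiedOutside (T : Finset ℕ) {K : IntermediateField ℚ (AlgebraicClosure ℚ)} {E : Type} [Group E]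
    (f : K.fixingSubgroup →* E) : Prop :=
  ∀ P : Ideal (𝓞 (AlgebraicClosure ℚ)), P.IsMaximal → (∀ l ∈ T, (l : 𝓞 (AlgebraicClosure ℚ)) ∉ P) →
    ∀ τ : K.fixingSubgroup, (∀ x : 𝓞 (AlgebraicClosure ℚ), (τ : AbsGal) • x - x ∈ P) → f τ = 1

/-- Every `ρ g` is unipotent modulo the maximal ideal: some power of `ρ g - 1` has all entries in the maximal ideal. -/
def ResUnipotent {G : Type} [Group G] {A : Type} [CommRing A] [IsLocalRing A] {n : ℕ} (ρ : G →* GL (Fin n) A) : Prop :=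
  ∀ g, ∃ M : ℕ, ∀ i j, (((ρ g : Matrix (Fin n) (Fin n) A) - 1) ^ M) i j ∈ maximalIdeal A

/-- For every `M` such that `p ^ (M + 1)` divides no `l - 1`, `l ∈ T`, there is an open normal subgroup `N` of index at most
`p ^ (24 M + 12)` of the absolute Galois group of `ℚ`, contained in the absolute Galois groups of all `K` with `InTower p T K`, on
which all continuous homomorphisms from these groups to finite `p`-groups, and all continuous residually unipotent representations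
of any dimension over Noetherian local rings of residue characteristic `p`, are trivial, if they are unramified outside `T`. -/
def FiniteTower (p : ℕ) (T : Finset ℕ) : Prop :=
  ∀ M : ℕ, (∀ l ∈ T, ¬ p ^ (M + 1) ∣ l - 1) →
    ∃ N : Subgroup AbsGal, N.Normal ∧ IsOpen (N : Set AbsGal) ∧ N.index ≤ p ^ (24 * M + 12) ∧
      ∀ K : IntermediateField ℚ (AlgebraicClosure ℚ), InTower p T K → N ≤ K.fixingSubgroup ∧
        (∀ (E : Type) [Group E] [Finite E], IsPGroup p E → ∀ f : K.fixingSubgroup →* E,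
          IsOpen (f.ker : Set K.fixingSubgroup) → HomUnramifiedOutside T f →
            ∀ g : K.fixingSubgroup, (g : AbsGal) ∈ N → f g = 1) ∧
        ∀ (n : ℕ) (A : Type) [CommRing A] [IsLocalRing A] [IsNoetherianRing A] [TopologicalSpace A],
          IsAdic (maximalIdeal A) → (p : A) ∈ maximalIdeal A →
          ∀ ρ : K.fixingSubgroup →* GL (Fin n) A, Continuous ρ → ResUnipotent ρ →
            HomUnramifiedOutside T ρ → ∀ g : K.fixingSubgroup, (g : AbsGal) ∈ N → ρ g = 1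

theorem Pr_eq (p x : ℕ) [Fact p.Prime] : Pr p x = P1 p x := by
  ext l
  rw [mem_P1, Pr, mem_filter, mem_range]
  constructor
  · rintro ⟨h1, h2, h3⟩
    exact ⟨by omega, h2, h3⟩
  · rintro ⟨h1, h2, h3⟩
    exact ⟨by omega, h2, h3⟩

section
variable {p : ℕ} [Fact p.Prime]

theorem atLeast_of {s : ℝ} {G R : ℕ → Prop} {dec : DecidablePred G}
    (h : ∀ ε : ℝ, 0 < ε → ∀ᶠ x : ℕ in atTop, (s - ε) * ((P1 p x).card : ℝ) ≤ (((P1 p x).filter G).card : ℝ))
    (hGR : ∀ q : ℕ, q.Prime → p ∣ q - 1 → G q → R q) : AtLeast p s R := by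
  classical
  intro ε hε
  filter_upwards [h ε hε] with x hx
  rw [Pr_eq]
  refine hx.trans (Nat.cast_le.2 (card_le_card fun q hq => ?_))
  rw [mem_filter] at hq ⊢
  obtain ⟨-, h2, h3⟩ := mem_P1.1 hq.1
  exact ⟨hq.1, hGR q h2 h3 hq.2⟩

/-- enlarging `S` -/
theorem mono_field {S S' : Finset ℕ} (h : S ⊆ S') {K : IntermediateField ℚ (AlgebraicClosure ℚ)}
    (hK : FieldUnramifiedOutside S K) : FieldUnramifiedOutside S' K :=
  fun P hP hl τ hτ => hK P hP (fun l hlS => hl l (h hlS)) τ hτ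

/-- the criterion -/
theorem alwaysFinite_of (hp2 : p ≠ 2) (Odd' : Prop) (T : Finset ℕ) (hT : ∀ l ∈ T, l.Prime)
    (χ : ∀ j : ℕ, (ZMod j)ˣ →* Multiplicative (ZMod p)) (hχ : Kr χ)
    (hN : ∀ S : Finset ℕ, Tame p S = Tame p T → (p ∈ S ↔ p ∈ T) → ∀ (F : Type) [Field F] [CharP F p] [Finite F],
      (Odd' → ∃ d : ℕ, Odd d ∧ Nat.card F = p ^ d) → NoPlane F p S χ) : AlwaysFinite p Odd' T := by
  classical
  intro S hS hST K _ hK A _ _ _ _ _ hA hfin hpm hodd ρ hρ hur hres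
  have hp : p.Prime := Fact.out
  have hchar : CharP (ResidueField A) p := Pool.Agent.TH831.OE.charP_res hp hpm
  have h1 : Tame p (S ∪ T) = Tame p T := by
    unfold Tame
    ext l
    simp only [mem_filter, mem_union]
    constructor
    · rintro ⟨h1 | h1, h2⟩
      · exact ⟨hST l h1 (Or.inr h2), h2⟩
      · exact ⟨h1, h2⟩
    · rintro ⟨h1, h2⟩
      exact ⟨Or.inr h1, h2⟩
  have h2 : p ∈ S ∪ T ↔ p ∈ T := by
    rw [mem_union]
    constructor
    · rintro (h | h)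
      · exact hST p h (Or.inl rfl)
      · exact h
    · exact Or.inr
  refine Pool.Agent.Results.MP_ca71b5_nt.RankTwoExtensions.result p hp2 (S ∪ T) (fun l hl => ?_) K
    (mono_field subset_union_left hK) A hA hfin hpm ρ hρ hur hres
    (Or.inl ⟨χ, fun l hl => ?_, hN (S ∪ T) h1 h2 (ResidueField A) hodd⟩)
  · rcases mem_union.1 hl with h | h
    · exact hS l h
    · exact hT l h
  · have h3 : l ∈ Tame p T := h1 ▸ hl
    unfold Tame at h3
    rw [mem_filter] at h3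
    exact (hχ l (hT l h3.1) h3.2).1

theorem tame_not (T : Finset ℕ) (h : ∀ l ∈ T, l.Prime ∧ p ∣ l - 1) : Tame p T = T ∧ p ∉ T ∧ Tame p (insert p T) = T := by
  have hp : p.Prime := Fact.out
  have hpT : p ∉ T := fun hm => hnep (h p hm).1 (h p hm).2 rfl
  have hpp : ¬ p ∣ p - 1 := by
    intro hd
    have := Nat.le_of_dvd (by have := hp.two_le; omega) hd
    have := hp.two_le
    omega
  have h1 : Tame p T = T := by
    unfold Tame
    exact filter_true_of_mem fun l hl => (h l hl).2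
  refine ⟨h1, hpT, ?_⟩
  unfold Tame at h1 ⊢
  rw [filter_insert, if_neg hpp, h1]

theorem af_triple (hp2 : p ≠ 2) (χ : ∀ j : ℕ, (ZMod j)ˣ →* Multiplicative (ZMod p)) (hχ : Kr χ) {a b q : ℕ}
    (ha : a.Prime ∧ p ∣ a - 1) (hb : b.Prime ∧ p ∣ b - 1) (hq : q.Prime ∧ p ∣ q - 1) (hab : a ≠ b) (haq : a ≠ q) (hbq : b ≠ q)
    (hD : D3 χ a b q ≠ 0) : AlwaysFinite p False {a, b, q} := by
  obtain ⟨h1, h2, -⟩ := tame_not (p := p) {a, b, q} (by
    intro l hl
    simp only [mem_insert, mem_singleton] at hl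
    rcases hl with rfl | rfl | rfl
    · exact ha
    · exact hb
    · exact hq)
  refine alwaysFinite_of hp2 False {a, b, q} (by
    intro l hl
    simp only [mem_insert, mem_singleton] at hl
    rcases hl with rfl | rfl | rfl
    · exact ha.1
    · exact hb.1
    · exact hq.1) χ hχ fun S hS hpS F _ _ _ _ => ?_
  rw [h1] at hS
  exact plane_triple χ S a b q ha.1.ne_one hb.1.ne_one hq.1.ne_one hS hab haq hbq (fun h => h2 (hpS.1 h)) hD

theorem af_pair (hp2 : p ≠ 2) (χ : ∀ j : ℕ, (ZMod j)ˣ →* Multiplicative (ZMod p)) (hχ : Kr χ) {a b : ℕ}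
    (ha : a.Prime ∧ p ∣ a - 1) (hb : b.Prime ∧ p ∣ b - 1) (hab : a ≠ b)
    (hD : Dt χ a b ≠ 0) : AlwaysFinite p False {p, a, b} := by
  obtain ⟨-, -, h3⟩ := tame_not (p := p) {a, b} (by
    intro l hl
    simp only [mem_insert, mem_singleton] at hl
    rcases hl with rfl | rfl
    · exact ha
    · exact hb)
  refine alwaysFinite_of hp2 False {p, a, b} (by
    intro l hl
    simp only [mem_insert, mem_singleton] at hl
    rcases hl with rfl | rfl | rfl
    · exact Fact.out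
    · exact ha.1
    · exact hb.1) χ hχ fun S hS hpS F _ _ _ _ => ?_
  rw [h3] at hS
  exact plane_pair χ S a b ha.1.ne_one hb.1.ne_one hS hab hD

theorem af_quad (hp2 : p ≠ 2) (χ : ∀ j : ℕ, (ZMod j)ˣ →* Multiplicative (ZMod p)) (hχ : Kr χ) {a b c q : ℕ}
    (ha : a.Prime ∧ p ∣ a - 1) (hb : b.Prime ∧ p ∣ b - 1) (hc : c.Prime ∧ p ∣ c - 1) (hq : q.Prime ∧ p ∣ q - 1)
    (hab : a ≠ b) (hac : a ≠ c) (haq : a ≠ q) (hbc : b ≠ c) (hbq : b ≠ q) (hcq : c ≠ q)
    (hD : GT χ a b c q) : AlwaysFinite p True {a, b, c, q} := by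
  obtain ⟨h1, h2, -⟩ := tame_not (p := p) {a, b, c, q} (by
    intro l hl
    simp only [mem_insert, mem_singleton] at hl
    rcases hl with rfl | rfl | rfl | rfl
    · exact ha
    · exact hb
    · exact hc
    · exact hq)
  refine alwaysFinite_of hp2 True {a, b, c, q} (by
    intro l hl
    simp only [mem_insert, mem_singleton] at hl
    rcases hl with rfl | rfl | rfl | rfl
    · exact ha.1
    · exact hb.1
    · exact hc.1
    · exact hq.1) χ hχ fun S hS hpS F _ _ _ hd => ?_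
  obtain ⟨d, hd1, hd2⟩ := hd trivial
  rw [h1] at hS
  exact plane_tame hp2 hd1 hd2 χ S a b c q ha.1.ne_one hb.1.ne_one hc.1.ne_one hq.1.ne_one hS hab hac haq hbc hbq hcq
    (fun h => h2 (hpS.1 h)) hD

theorem af_wild (hp2 : p ≠ 2) (χ : ∀ j : ℕ, (ZMod j)ˣ →* Multiplicative (ZMod p)) (hχ : Kr χ) {a b q : ℕ}
    (ha : a.Prime ∧ p ∣ a - 1) (hb : b.Prime ∧ p ∣ b - 1) (hq : q.Prime ∧ p ∣ q - 1)
    (hab : a ≠ b) (haq : a ≠ q) (hbq : b ≠ q)
    (hD : GW χ a b q) : AlwaysFinite p True {p, a, b, q} := by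
  obtain ⟨-, -, h3⟩ := tame_not (p := p) {a, b, q} (by
    intro l hl
    simp only [mem_insert, mem_singleton] at hl
    rcases hl with rfl | rfl | rfl
    · exact ha
    · exact hb
    · exact hq)
  refine alwaysFinite_of hp2 True {p, a, b, q} (by
    intro l hl
    simp only [mem_insert, mem_singleton] at hl
    rcases hl with rfl | rfl | rfl | rfl
    · exact Fact.out
    · exact ha.1
    · exact hb.1
    · exact hq.1) χ hχ fun S hS hpS F _ _ _ hd => ?_
  obtain ⟨d, hd1, hd2⟩ := hd trivial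
  rw [h3] at hS
  exact plane_wild hp2 hd1 hd2 χ S a b q ha.1.ne_one hb.1.ne_one hq.1.ne_one hS hab haq hbq hD

open Classical in
theorem vec_card {n : ℕ} {c : Fin n → ZMod p} {a : Fin n} (ha : c a ≠ 0) :
    (((univ : Finset (Fin n → ZMod p)).filter fun s => ∑ j, s j * c j = 0).card : ℝ) ≤ (p : ℝ) ^ n / p := by
  have hp : p.Prime := Fact.out
  have hp0 : (0 : ℝ) < p := by exact_mod_cast hp.pos
  have hsum : ∀ (s : Fin n → ZMod p) (t : ZMod p),
      ∑ j, (s + (Pi.single a t : Fin n → ZMod p)) j * c j = ∑ j, s j * c j + t * c a := by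
    intro s t
    simp only [Pi.add_apply, add_mul, sum_add_distrib]
    congr 1
    rw [sum_eq_single a (fun j _ hj => by rw [Pi.single_eq_of_ne hj, zero_mul]) (fun h => absurd (mem_univ a) h),
      Pi.single_eq_same]
  have h1 : (((univ : Finset (Fin n → ZMod p)).filter fun s => ∑ j, s j * c j = 0) ×ˢ (univ : Finset (ZMod p))).card ≤
      (univ : Finset (Fin n → ZMod p)).card := by
    refine card_le_card_of_injOn (fun x => x.1 + Pi.single a x.2) (fun _ _ => mem_coe.2 (mem_univ _)) ?_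
    rintro ⟨s, t⟩ hs ⟨s', t'⟩ hs' h
    rw [mem_coe, mem_product, mem_filter] at hs hs'
    have h2 := congrArg (fun v => ∑ j, v j * c j) h
    simp only [hsum] at h2
    rw [hs.1.2, hs'.1.2, zero_add, zero_add] at h2
    have h3 : t = t' := mul_right_cancel₀ ha h2
    subst h3
    have h4 : s + (Pi.single a t : Fin n → ZMod p) = s' + (Pi.single a t : Fin n → ZMod p) := h
    rw [add_right_cancel h4]
  rw [card_product, card_univ, card_univ, Fintype.card_fun, ZMod.card, Fintype.card_fin] at h1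
  rw [le_div_iff₀ hp0]
  exact_mod_cast h1

open Classical in
theorem hyper {n : ℕ} {c : Fin n → ZMod p} {a : Fin n} (ha : c a ≠ 0) :
    (1 - 1 / (p : ℝ)) * (p : ℝ) ^ n ≤ (((univ : Finset (Fin n → ZMod p)).filter fun s => ∑ j, s j * c j ≠ 0).card : ℝ) := by
  have h1 := vec_card ha
  have h2 := card_filter_add_card_filter_not (s := (univ : Finset (Fin n → ZMod p))) (fun s => ∑ j, s j * c j = 0)
  rw [card_univ, Fintype.card_fun, ZMod.card, Fintype.card_fin] at h2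
  have h3 : ((((univ : Finset (Fin n → ZMod p)).filter fun s => ∑ j, s j * c j = 0).card : ℕ) : ℝ) +
      ((((univ : Finset (Fin n → ZMod p)).filter fun s => ¬ ∑ j, s j * c j = 0).card : ℕ) : ℝ) = (p : ℝ) ^ n := by
    exact_mod_cast h2
  have h4 : (1 - 1 / (p : ℝ)) * (p : ℝ) ^ n = (p : ℝ) ^ n - (p : ℝ) ^ n / p := by ring
  rw [h4]
  linarith

open Classical in
theorem cnt {m : ℕ} (Good : (Fin (m + 1) → ZMod p) → (Fin (m + 1) → ZMod p) → Prop) {α β : ℝ} (hβ : 0 ≤ β)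
    (W : Finset (Fin (m + 1) → ZMod p)) (hW : α * (p : ℝ) ^ (m + 1) ≤ (W.card : ℝ))
    (h : ∀ w ∈ W, β * (p : ℝ) ^ (m + 1) ≤ (((univ : Finset (Fin (m + 1) → ZMod p)).filter fun s => Good w s).card : ℝ)) :
    α * β ≤ ((∑ w : Fin (m + 1) → ZMod p, ((univ : Finset (Fin (m + 1) → ZMod p)).filter fun s => Good w s).card : ℕ) : ℝ) /
      ((p : ℝ) ^ Fintype.card (Fin (m + 1)) * Fintype.card (Fin (m + 1) → ZMod p)) := by
  have hp : p.Prime := Fact.out
  have hp0 : (0 : ℝ) < p := by exact_mod_cast hp.pos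
  have hpn : (0 : ℝ) < (p : ℝ) ^ (m + 1) := by positivity
  rw [Fintype.card_fun, ZMod.card, Fintype.card_fin]
  push_cast
  rw [le_div_iff₀ (by positivity)]
  calc α * β * ((p : ℝ) ^ (m + 1) * (p : ℝ) ^ (m + 1)) = (α * (p : ℝ) ^ (m + 1)) * (β * (p : ℝ) ^ (m + 1)) := by ring
    _ ≤ W.card * (β * (p : ℝ) ^ (m + 1)) := mul_le_mul_of_nonneg_right hW (by positivity)
    _ = ∑ w ∈ W, β * (p : ℝ) ^ (m + 1) := by rw [sum_const, nsmul_eq_mul]
    _ ≤ ∑ w ∈ W, (((univ : Finset (Fin (m + 1) → ZMod p)).filter fun s => Good w s).card : ℝ) := sum_le_sum h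
    _ ≤ _ := sum_le_sum_of_subset_of_nonneg (subset_univ W) fun _ _ _ => Nat.cast_nonneg _

theorem one_sub_nonneg : (0 : ℝ) ≤ 1 - 1 / (p : ℝ) := by
  have hp : p.Prime := Fact.out
  have hp1 : (1 : ℝ) ≤ p := by exact_mod_cast hp.one_lt.le
  rw [sub_nonneg, div_le_one (by linarith)]
  exact hp1

theorem one_sub_le : 1 - 1 / (p : ℝ) ≤ 1 := by
  have : 0 ≤ 1 / (p : ℝ) := by positivity
  linarith

open Classical in
/-- the second prime of a triple -/
theorem step2 (hp2 : p ≠ 2) (χ : ∀ j : ℕ, (ZMod j)ˣ →* Multiplicative (ZMod p)) (hχ : Kr χ) {a : ℕ}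
    (ha : a.Prime) (hpa : p ∣ a - 1) (ε : ℝ) (hε : 0 < ε) :
    ∀ᶠ x : ℕ in atTop, (1 - 1 / (p : ℝ) - ε) * ((P1 p x).card : ℝ) ≤
      (((P1 p x).filter fun q => q ≠ a ∧ lk χ a q ≠ 0).card : ℝ) := by
  obtain ⟨Good, hGood⟩ : ∃ G : (Fin (1 + 1) → ZMod p) → (Fin (1 + 1) → ZMod p) → Prop,
      G = fun w _ => w 1 ≠ 0 := ⟨_, rfl⟩
  have hcount : (1 - 1 / (p : ℝ)) * 1 ≤ ((∑ w : Fin (1 + 1) → ZMod p,
      ((univ : Finset (Fin (1 + 1) → ZMod p)).filter fun s => Good w s).card : ℕ) : ℝ) /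
      ((p : ℝ) ^ Fintype.card (Fin (1 + 1)) * Fintype.card (Fin (1 + 1) → ZMod p)) := by
    refine cnt Good zero_le_one
      ((univ : Finset (Fin (1 + 1) → ZMod p)).filter fun w => ∑ j, w j * (Pi.single 1 1 : Fin (1 + 1) → ZMod p) j ≠ 0)
      (hyper (by rw [Pi.single_eq_same]; exact one_ne_zero)) (fun w hw => ?_)
    have h1 : w 1 ≠ 0 := by
      have := (mem_filter.1 hw).2
      simpa [Fin.sum_univ_two, Pi.single_apply] using this
    have h2 : ((univ : Finset (Fin (1 + 1) → ZMod p)).filter fun s => Good w s) = univ := by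
      refine filter_true_of_mem fun s _ => ?_
      rw [hGood]
      exact h1
    rw [h2, card_univ, Fintype.card_fun, ZMod.card, Fintype.card_fin, one_mul]
    push_cast
    exact le_rfl
  have h := densN (p := p) hp2 χ hχ (m := 1) (fun _ => a) (fun _ => ha) (fun _ => hpa) (fun i j _ => Subsingleton.elim i j)
    Good (fun w s h h0 => by
      rw [hGood, h0] at h
      exact h rfl) (fun w s c hc h => by
      rw [hGood] at h ⊢
      exact mul_ne_zero hc h)
    ((1 - 1 / (p : ℝ)) * 1) (by rw [mul_one]; exact one_sub_le) hcount ε hε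
  filter_upwards [h] with x hx
  rw [mul_one] at hx
  refine hx.trans (Nat.cast_le.2 (card_le_card fun q hq => ?_))
  rw [mem_filter] at hq ⊢
  refine ⟨hq.1, hq.2.1 0, ?_⟩
  have h1 := hq.2.2
  rw [hGood] at h1
  exact h1

open Classical in
/-- the second prime of a pair -/
theorem step2' (hp2 : p ≠ 2) (χ : ∀ j : ℕ, (ZMod j)ˣ →* Multiplicative (ZMod p)) (hχ : Kr χ) {a : ℕ}
    (ha : a.Prime) (hpa : p ∣ a - 1) (hcd : lv p a ≠ 0 ∨ lk χ p a ≠ 0) (ε : ℝ) (hε : 0 < ε) :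
    ∀ᶠ x : ℕ in atTop, ((1 - 1 / (p : ℝ)) ^ 2 - ε) * ((P1 p x).card : ℝ) ≤
      (((P1 p x).filter fun q => q ≠ a ∧ Dt χ a q ≠ 0).card : ℝ) := by
  obtain ⟨Good, hGood⟩ : ∃ G : (Fin (1 + 1) → ZMod p) → (Fin (1 + 1) → ZMod p) → Prop,
      G = fun w s => s 0 * lk χ p a * w 1 - lv p a * s 1 * w 0 ≠ 0 := ⟨_, rfl⟩
  have hcount : (1 - 1 / (p : ℝ)) * (1 - 1 / (p : ℝ)) ≤ ((∑ w : Fin (1 + 1) → ZMod p,
      ((univ : Finset (Fin (1 + 1) → ZMod p)).filter fun s => Good w s).card : ℕ) : ℝ) /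
      ((p : ℝ) ^ Fintype.card (Fin (1 + 1)) * Fintype.card (Fin (1 + 1) → ZMod p)) := by
    have key : ∀ w : Fin (1 + 1) → ZMod p, ∀ s : Fin (1 + 1) → ZMod p, Good w s ↔
        ∑ j, s j * (![lk χ p a * w 1, -(lv p a * w 0)] : Fin (1 + 1) → ZMod p) j ≠ 0 := by
      intro w s
      rw [hGood, Fin.sum_univ_two]
      simp only [Matrix.cons_val_zero, Matrix.cons_val_one]
      rw [show s 0 * (lk χ p a * w 1) + s 1 * -(lv p a * w 0) = s 0 * lk χ p a * w 1 - lv p a * s 1 * w 0 by ring]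
    rcases hcd with h | h
    · refine cnt Good one_sub_nonneg
        ((univ : Finset (Fin (1 + 1) → ZMod p)).filter fun w => ∑ j, w j * (Pi.single 0 1 : Fin (1 + 1) → ZMod p) j ≠ 0)
        (hyper (by rw [Pi.single_eq_same]; exact one_ne_zero)) (fun w hw => ?_)
      have h1 : w 0 ≠ 0 := by
        have := (mem_filter.1 hw).2
        simpa [Fin.sum_univ_two, Pi.single_apply] using this
      simp only [key]
      exact hyper (a := 1) (neg_ne_zero.2 (mul_ne_zero h h1))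
    · refine cnt Good one_sub_nonneg
        ((univ : Finset (Fin (1 + 1) → ZMod p)).filter fun w => ∑ j, w j * (Pi.single 1 1 : Fin (1 + 1) → ZMod p) j ≠ 0)
        (hyper (by rw [Pi.single_eq_same]; exact one_ne_zero)) (fun w hw => ?_)
      have h1 : w 1 ≠ 0 := by
        have := (mem_filter.1 hw).2
        simpa [Fin.sum_univ_two, Pi.single_apply] using this
      simp only [key]
      exact hyper (a := 0) (mul_ne_zero h h1)
  have h := densN (p := p) hp2 χ hχ (m := 1) (fun _ => a) (fun _ => ha) (fun _ => hpa) (fun i j _ => Subsingleton.elim i j)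
    Good (fun w s h h0 => by
      rw [hGood, h0] at h
      simp at h) (fun w s c hc h => by
      rw [hGood] at h ⊢
      have e : s 0 * lk χ p a * (c * w 1) - lv p a * s 1 * (c * w 0) = c * (s 0 * lk χ p a * w 1 - lv p a * s 1 * w 0) := by ring
      simp only [e]
      exact mul_ne_zero hc h)
    ((1 - 1 / (p : ℝ)) * (1 - 1 / (p : ℝ))) (by
      have h1 := one_sub_nonneg (p := p)
      have h2 := one_sub_le (p := p)
      nlinarith) hcount ε hε
  filter_upwards [h] with x hx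
  rw [pow_two]
  refine hx.trans (Nat.cast_le.2 (card_le_card fun q hq => ?_))
  rw [mem_filter] at hq ⊢
  refine ⟨hq.1, hq.2.1 0, ?_⟩
  have h1 := hq.2.2
  rw [hGood] at h1
  exact h1

open Classical in
/-- the third prime of a triple -/
theorem step3 (hp2 : p ≠ 2) (χ : ∀ j : ℕ, (ZMod j)ˣ →* Multiplicative (ZMod p)) (hχ : Kr χ) {a b : ℕ}
    (ha : a.Prime) (hpa : p ∣ a - 1) (hb : b.Prime) (hpb : p ∣ b - 1) (hab : a ≠ b) (h12 : lk χ a b ≠ 0) (ε : ℝ) (hε : 0 < ε) :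
    ∀ᶠ x : ℕ in atTop, ((1 - 1 / (p : ℝ)) ^ 2 - ε) * ((P1 p x).card : ℝ) ≤
      (((P1 p x).filter fun q => D3 χ a b q ≠ 0).card : ℝ) := by
  filter_upwards [bad_triple hp2 χ hχ a b ha hb hpa hpb hab h12 ε hε] with x hx
  have h2 := card_filter_add_card_filter_not (s := P1 p x) (fun q => D3 χ a b q = 0)
  have h3 : ((((P1 p x).filter fun q => D3 χ a b q = 0).card : ℕ) : ℝ) +
      ((((P1 p x).filter fun q => ¬ D3 χ a b q = 0).card : ℕ) : ℝ) = ((P1 p x).card : ℝ) := by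
    exact_mod_cast h2
  have h4 : (1 - (1 - 1 / (p : ℝ)) ^ 2 + ε) * ((P1 p x).card : ℝ) =
      ((P1 p x).card : ℝ) - ((1 - 1 / (p : ℝ)) ^ 2 - ε) * ((P1 p x).card : ℝ) := by ring
  rw [h4] at hx
  linarith

theorem D3_ne {χ : ∀ j : ℕ, (ZMod j)ˣ →* Multiplicative (ZMod p)} {a b q : ℕ} (ha : a.Prime) (hb : b.Prime)
    (hD : D3 χ a b q ≠ 0) : q ≠ a ∧ q ≠ b := by
  constructor
  · rintro rfl
    apply hD
    unfold D3
    rw [Pool.Agent.Q202.RT.lk_self χ ha.ne_one]
    ring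
  · rintro rfl
    apply hD
    unfold D3
    rw [Pool.Agent.Q202.RT.lk_self χ hb.ne_one]
    ring

theorem lk_p_ne (χ : ∀ j : ℕ, (ZMod j)ˣ →* Multiplicative (ZMod p)) (hχ : Kr χ) {a : ℕ} (ha : a.Prime) (hpa : p ∣ a - 1)
    (h : (p : ZMod a) ^ ((a - 1) / p) ≠ 1) : lk χ p a ≠ 0 := by
  have hp : p.Prime := Fact.out
  have hco : Nat.Coprime p a := (Nat.coprime_primes hp ha).2 (Ne.symm (hnep ha hpa))
  unfold lk
  rw [dif_pos hco]
  intro h0
  apply h
  have h1 : χ a (ZMod.unitOfCoprime p hco) = 1 := by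
    rw [← toAdd_eq_zero]
    exact h0
  have h2 := ((hχ a ha hpa).2 _).1 h1
  have h3 := congrArg (fun u : (ZMod a)ˣ => (u : ZMod a)) h2
  simpa using h3

/-! ### The towers -/

section tower

open Pool.Agent.W569.FM (GF OO InInertia)
open Pool.Agent.N829.PW (Tri Ur SQ)

/-- the set of the elements of inertia groups outside `T` -/
def UT (T : Finset ℕ) : Set AbsGal :=
  {τ | ∃ P : Ideal (𝓞 (AlgebraicClosure ℚ)), P.IsMaximal ∧
    (∀ l ∈ T, (l : 𝓞 (AlgebraicClosure ℚ)) ∉ P) ∧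
    ∀ x : 𝓞 (AlgebraicClosure ℚ), τ • x - x ∈ P}

theorem UT_conj (T : Finset ℕ) : ∀ u ∈ UT T, ∀ g : AbsGal, g * u * g⁻¹ ∈ UT T := by
  rintro τ ⟨P, hP, hT, hτ⟩ g
  set φ : 𝓞 (AlgebraicClosure ℚ) →+* 𝓞 (AlgebraicClosure ℚ) :=
    MulSemiringAction.toRingHom AbsGal (𝓞 (AlgebraicClosure ℚ)) g⁻¹ with hφ
  have hφx : ∀ x, φ x = g⁻¹ • x := fun x => rfl
  refine ⟨P.comap φ, ?_, fun l hl h => ?_, fun x => ?_⟩
  · refine Ideal.comap_isMaximal_of_surjective φ fun x => ⟨g • x, ?_⟩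
    rw [hφx, inv_smul_smul]
  · rw [Ideal.mem_comap, map_natCast] at h
    exact hT l hl h
  · rw [Ideal.mem_comap, hφx, smul_sub, smul_smul]
    have h1 := hτ (g⁻¹ • x)
    rw [smul_smul] at h1
    rw [← mul_assoc, ← mul_assoc, inv_mul_cancel, one_mul]
    exact h1

/-- the argument of `FiniteTowers` (helper3) for all `p` -/
theorem tower_of_tri (hp2 : p ≠ 2) {χ : ∀ j : ℕ, (ZMod j)ˣ →* Multiplicative (ZMod p)} (t : Tri p χ) :
    FiniteTower p t.T := by
  classical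
  intro M hM
  have hp : p.Prime := Fact.out
  have hMi : ∀ i, ¬ p ^ (M + 1) ∣ t.l i - 1 := fun i => hM _ (t.mem i).1
  have hex : ∃ N : Subgroup AbsGal, N.Normal ∧ IsOpen (N : Set AbsGal) ∧ N.index ≤ p ^ (24 * M + 12) ∧
      ∀ (E : Type) [Group E] [Finite E], IsPGroup p E → ∀ f : AbsGal →* E,
        IsOpen (f.ker : Set AbsGal) → (∀ u ∈ UT t.T, f u = 1) →
          ∀ g ∈ (N : Set AbsGal), f g = 1 := by
    obtain ⟨N, hN1, hN2, hN3, hN4⟩ := Pool.Agent.N829.PW.exists_max (K := ℚ) (p := p)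
      (S := SQ p t.T) (B := (p ^ 3) ^ (4 * (2 * M + 1)))
      (fun E _ _ hE f hfs hfo hur =>
        Pool.Agent.N829.PW.tri_fin hp2 t (M := M) hMi hE f hfs hfo hur)
    refine ⟨N, hN1, hN2, hN3.trans (le_of_eq ?_), fun E _ _ hE f hfo hfU g hg => ?_⟩
    · rw [← pow_mul]
      congr 1
      ring
    refine hN4 E hE f hfo (Pool.Agent.N829.PW.ur_of f fun P hP l hl hlP hl' τ hτ => ?_) g hg
    refine hfU τ ⟨P, hP, fun q hq hqP => ?_, hτ⟩
    obtain ⟨i, -, hi⟩ := mem_image.1 hq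
    have hqp : q.Prime := by
      rw [← hi]
      exact (t.hl i).1
    have hql := Pool.Agent.N829.PW.prime_unique hP hl hqp hlP hqP
    subst hql
    rcases hl' with h1 | h1
    · exact t.ne i (hi.trans h1)
    · exact h1.2 hq
  obtain ⟨N, hN1, hN2, hN3, hkey⟩ := hex
  refine ⟨N, hN1, hN2, hN3, fun K hK => ?_⟩
  obtain ⟨L, hKL, hLf, hLn, ⟨k, hLi⟩, hLu⟩ := hK
  have : CompactSpace AbsGal := inferInstanceAs (CompactSpace (GF ℚ))
  have hLH : L.fixingSubgroup ≤ K.fixingSubgroup := IntermediateField.fixingSubgroup_antitone hKL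
  have hLo : IsOpen (L.fixingSubgroup : Set AbsGal) := IntermediateField.fixingSubgroup_isOpen L
  have hLU : UT t.T ⊆ (L.fixingSubgroup : Set AbsGal) := by
    rintro τ ⟨P, hP, h1, h2⟩
    exact hLu P hP h1 τ h2
  have hmain : ∀ (E : Type) [Group E] [Finite E], IsPGroup p E → ∀ f : K.fixingSubgroup →* E,
      IsOpen (f.ker : Set K.fixingSubgroup) →
      (∀ u : K.fixingSubgroup, (u : AbsGal) ∈ UT t.T → f u = 1) →
        (N : Set AbsGal) ⊆ (L.fixingSubgroup : Set AbsGal) ∧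
          ∀ g : K.fixingSubgroup, (g : AbsGal) ∈ (N : Set AbsGal) → f g = 1 :=
    fun E _ _ hE f hf hfU =>
      Pool.Agent.L5helper3.RA.core (UT_conj _) hkey hLH hLo hLi hLU hE f hf hfU
  have hNK : N ≤ K.fixingSubgroup := by
    have h1 := (hmain Unit (fun x => ⟨0, Subsingleton.elim _ _⟩) 1
      (by rw [MonoidHom.ker_one]; exact isOpen_univ) (fun _ _ => rfl)).1
    exact fun g hg => hLH (h1 hg)
  refine ⟨hNK, fun E _ _ hE f hf hfU g hg => ?_, ?_⟩
  · refine (hmain E hE f hf ?_).2 g hg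
    rintro u ⟨P, hP, h1, h2⟩
    exact hfU P hP h1 u h2
  · intro n A _ _ _ _ hA h3 ρ hρ hres hur g hg
    have hKc : CompactSpace K.fixingSubgroup := by
      have hKo : IsOpen (K.fixingSubgroup : Set AbsGal) := Subgroup.isOpen_mono hLH hLo
      exact isCompact_iff_compactSpace.1 (Subgroup.isClosed_of_isOpen _ hKo).isCompact
    refine Pool.Agent.L5helper3.RA.rep_of_fin (p := p)
      (U := {u : K.fixingSubgroup | (u : AbsGal) ∈ UT t.T})
      (N := {g : K.fixingSubgroup | (g : AbsGal) ∈ N}) ?_ hA h3 hρ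
      (fun g => (hres g).imp fun M h => h) ?_ g hg
    · intro E _ _ hE f hf hfU g hg
      exact (hmain E hE f hf fun u hu => hfU u hu).2 g hg
    · rintro u ⟨P, hP, h1, h2⟩
      exact hur P hP h1 u h2

theorem lk_apply (χ : ∀ j : ℕ, (ZMod j)ˣ →* Multiplicative (ZMod p)) {a b : ℕ} (ha : a.Prime) (hb : b.Prime) (hab : a ≠ b)
    (x : (ZMod b)ˣ) (hx : (x : ZMod b) = (a : ZMod b)) : lk χ a b = Multiplicative.toAdd (χ b x) := by
  have hco : Nat.Coprime a b := (Nat.coprime_primes ha hb).2 hab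
  unfold lk
  rw [dif_pos hco]
  congr 2
  exact Units.ext (by rw [hx]; rfl)

/-- the criterion for a triple; `s` is the level of `a` -/
theorem tower_triple (hp2 : p ≠ 2) (χ : ∀ j : ℕ, (ZMod j)ˣ →* Multiplicative (ZMod p)) {a b c : ℕ}
    (ha : a.Prime ∧ p ∣ a - 1) (hb : b.Prime ∧ p ∣ b - 1) (hc : c.Prime ∧ p ∣ c - 1) (hab : a ≠ b) (hac : a ≠ c) (hbc : b ≠ c)
    (hD : D3 χ a b c ≠ 0) {s : ℕ} (hs : p ^ s ∣ a - 1) (hs' : ¬ p ^ (s + 1) ∣ a - 1)
    (h : (((b - 1) / p ^ s : ℕ) : ZMod p) * lk χ a c + (((a - 1) / p ^ s : ℕ) : ZMod p) * lk χ b c ≠ 0) :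
    FiniteTower p {a, b, c} := by
  classical
  have hinj : Function.Injective ![a, b, c] := by
    intro i j hij
    fin_cases i <;> fin_cases j
    · rfl
    · exact absurd hij hab
    · exact absurd hij hac
    · exact absurd hij.symm hab
    · rfl
    · exact absurd hij hbc
    · exact absurd hij.symm hac
    · exact absurd hij.symm hbc
    · rfl
  have hall : ∀ i, (![a, b, c] i).Prime ∧ p ∣ ![a, b, c] i - 1 := by
    rw [Fin.forall_fin_succ, Fin.forall_fin_two]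
    exact ⟨ha, hb, hc⟩
  let t : Tri p χ :=
    { l := ![a, b, c]
      inj := hinj
      hl := hall
      lam := fun i j => lk χ (![a, b, c] i) (![a, b, c] j)
      hlam := fun i j hij x hx => lk_apply χ (hall i).1 (hall j).1 (fun h => hij (hinj h)) x hx
      hΔ := by
        intro h0
        apply hD
        have h1 : lk χ a c * lk χ b a * lk χ c b - lk χ a b * lk χ b c * lk χ c a = 0 := h0
        unfold D3
        linear_combination -h1
      hu := fun s' _ h1 h2 u hu e1 _ _ => by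
        have hss : s' = s := by
          rcases lt_trichotomy s' s with h3 | h3 | h3
          · exact absurd ((pow_dvd_pow p h3).trans hs) (h2 0)
          · exact h3
          · exact absurd ((pow_dvd_pow p h3).trans (h1 0)) hs'
        subst hss
        apply h
        rw [hu, hu] at e1
        exact e1 }
  have hT : t.T = {a, b, c} := by
    show univ.image ![a, b, c] = {a, b, c}
    ext l
    simp only [mem_image, mem_univ, true_and, mem_insert, mem_singleton, Fin.exists_fin_succ, Matrix.cons_val_zero,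
      Matrix.cons_val_succ, IsEmpty.exists_iff, or_false]
    constructor
    · rintro (h | h | h)
      · exact Or.inl h.symm
      · exact Or.inr (Or.inl h.symm)
      · exact Or.inr (Or.inr h.symm)
    · rintro (h | h | h)
      · exact Or.inl h.symm
      · exact Or.inr (Or.inl h.symm)
      · exact Or.inr (Or.inr h.symm)
  rw [← hT]
  exact tower_of_tri hp2 t

end tower

open Classical in
/-- the third prime of a triple with finite tower -/
theorem step3' (hp2 : p ≠ 2) (χ : ∀ j : ℕ, (ZMod j)ˣ →* Multiplicative (ZMod p)) (hχ : Kr χ) {a b : ℕ}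
    (ha : a.Prime) (hpa : p ∣ a - 1) (hb : b.Prime) (hpb : p ∣ b - 1) (hab : a ≠ b) (h12 : lk χ a b ≠ 0) {u v : ZMod p}
    (hu : u ≠ 0) (ε : ℝ) (hε : 0 < ε) :
    ∀ᶠ x : ℕ in atTop, ((1 - 2 / (p : ℝ)) * (1 - 1 / (p : ℝ)) - ε) * ((P1 p x).card : ℝ) ≤
      (((P1 p x).filter fun q => D3 χ a b q ≠ 0 ∧ v * lk χ a q + u * lk χ b q ≠ 0).card : ℝ) := by
  have hp : p.Prime := Fact.out
  have hp0 : (0 : ℝ) < p := by exact_mod_cast hp.pos
  have hp2' : (2 : ℝ) ≤ p := by exact_mod_cast hp.two_le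
  obtain ⟨Good, hGood⟩ : ∃ G : (Fin (2 + 1) → ZMod p) → (Fin (2 + 1) → ZMod p) → Prop,
      G = fun w s => lk χ a b * w 2 * s 1 - w 1 * lk χ b a * s 2 ≠ 0 ∧ v * w 1 + u * w 2 ≠ 0 := ⟨_, rfl⟩
  have hcount : (1 - 2 / (p : ℝ)) * (1 - 1 / (p : ℝ)) ≤ ((∑ w : Fin (2 + 1) → ZMod p,
      ((univ : Finset (Fin (2 + 1) → ZMod p)).filter fun s => Good w s).card : ℕ) : ℝ) /
      ((p : ℝ) ^ Fintype.card (Fin (2 + 1)) * Fintype.card (Fin (2 + 1) → ZMod p)) := by
    obtain ⟨W, hW⟩ : ∃ W : Finset (Fin (2 + 1) → ZMod p), ∀ w, w ∈ W ↔ w 2 ≠ 0 ∧ v * w 1 + u * w 2 ≠ 0 :=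
      ⟨univ.filter fun w => w 2 ≠ 0 ∧ v * w 1 + u * w 2 ≠ 0, fun w => by simp only [mem_filter, mem_univ, true_and]⟩
    refine cnt Good one_sub_nonneg W ?_ (fun w hw => ?_)
    · obtain ⟨A, hA⟩ : ∃ A : Finset (Fin (2 + 1) → ZMod p), A = univ.filter fun s =>
        ∑ j, s j * (Pi.single 2 1 : Fin (2 + 1) → ZMod p) j = 0 := ⟨_, rfl⟩
      obtain ⟨B, hB⟩ : ∃ B : Finset (Fin (2 + 1) → ZMod p), B = univ.filter fun s =>
        ∑ j, s j * (![0, v, u] : Fin (2 + 1) → ZMod p) j = 0 := ⟨_, rfl⟩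
      have e1 : (A.card : ℝ) ≤ (p : ℝ) ^ (2 + 1) / p := by
        rw [hA]
        exact vec_card (a := 2) (by rw [Pi.single_eq_same]; exact one_ne_zero)
      have e2 : (B.card : ℝ) ≤ (p : ℝ) ^ (2 + 1) / p := by
        rw [hB]
        exact vec_card (a := 2) hu
      have e3 : (univ : Finset (Fin (2 + 1) → ZMod p)) ⊆ W ∪ (A ∪ B) := by
        intro w _
        by_cases h1 : w 2 = 0
        · refine mem_union_right _ (mem_union_left _ ?_)
          rw [hA, mem_filter]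
          refine ⟨mem_univ _, ?_⟩
          rw [sum_eq_single 2 (fun j _ hj => by rw [Pi.single_eq_of_ne hj, mul_zero]) (fun h => absurd (mem_univ _) h), h1,
            zero_mul]
        · by_cases h2 : v * w 1 + u * w 2 = 0
          · refine mem_union_right _ (mem_union_right _ ?_)
            rw [hB, mem_filter]
            refine ⟨mem_univ _, ?_⟩
            rw [Fin.sum_univ_three]
            simp only [Matrix.cons_val_zero, Matrix.cons_val_one, Matrix.cons_val]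
            linear_combination h2
          · exact mem_union_left _ ((hW w).2 ⟨h1, h2⟩)
      have e4 := card_le_card e3
      have e5 : (p : ℝ) ^ (2 + 1) ≤ (W.card : ℝ) + ((A.card : ℝ) + (B.card : ℝ)) := by
        have e6 := (e4.trans (card_union_le _ _)).trans (Nat.add_le_add_left (card_union_le _ _) _)
        rw [card_univ, Fintype.card_fun, ZMod.card, Fintype.card_fin] at e6
        exact_mod_cast e6
      have e7 : (1 - 2 / (p : ℝ)) * (p : ℝ) ^ (2 + 1) = (p : ℝ) ^ (2 + 1) - ((p : ℝ) ^ (2 + 1) / p + (p : ℝ) ^ (2 + 1) / p) := by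
        ring
      rw [e7]
      exact sub_le_iff_le_add.2 (e5.trans (add_le_add le_rfl (add_le_add e1 e2)))
    · obtain ⟨h1, h2⟩ := (hW w).1 hw
      have key : ((univ : Finset (Fin (2 + 1) → ZMod p)).filter fun s => Good w s) =
          (univ : Finset (Fin (2 + 1) → ZMod p)).filter fun s =>
            ∑ j, s j * (![0, lk χ a b * w 2, -(w 1 * lk χ b a)] : Fin (2 + 1) → ZMod p) j ≠ 0 := by
        ext s
        simp only [mem_filter, mem_univ, true_and]
        rw [hGood]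
        have e1 : ∑ j, s j * (![0, lk χ a b * w 2, -(w 1 * lk χ b a)] : Fin (2 + 1) → ZMod p) j =
            lk χ a b * w 2 * s 1 - w 1 * lk χ b a * s 2 := by
          rw [Fin.sum_univ_three]
          simp only [Matrix.cons_val_zero, Matrix.cons_val_one, Matrix.cons_val]
          ring
        rw [e1]
        exact ⟨fun h => h.1, fun h => ⟨h, h2⟩⟩
      rw [key]
      exact hyper (a := 1) (mul_ne_zero h12 h1)
  have h := densN (p := p) hp2 χ hχ (m := 2) ![a, b] (by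
      rw [Fin.forall_fin_two]
      exact ⟨ha, hb⟩) (by
      rw [Fin.forall_fin_two]
      exact ⟨hpa, hpb⟩) (by
      intro i j hij
      fin_cases i <;> fin_cases j
      · rfl
      · exact absurd hij hab
      · exact absurd hij.symm hab
      · rfl)
    Good (fun w s h h0 => by
      rw [hGood, h0] at h
      simp at h) (fun w s c hc h => by
      rw [hGood] at h ⊢
      have e1 : lk χ a b * (c * w 2) * s 1 - (c * w 1) * lk χ b a * s 2 = c * (lk χ a b * w 2 * s 1 - w 1 * lk χ b a * s 2) := by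
        ring
      have e2 : v * (c * w 1) + u * (c * w 2) = c * (v * w 1 + u * w 2) := by ring
      simp only [e1, e2]
      exact ⟨mul_ne_zero hc h.1, mul_ne_zero hc h.2⟩)
    ((1 - 2 / (p : ℝ)) * (1 - 1 / (p : ℝ))) (by
      have h1 := one_sub_nonneg (p := p)
      have h2 := one_sub_le (p := p)
      have h3 : 0 ≤ 2 / (p : ℝ) := by positivity
      nlinarith) hcount ε hε
  filter_upwards [h] with x hx
  refine hx.trans (Nat.cast_le.2 (card_le_card fun q hq => ?_))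
  rw [mem_filter] at hq ⊢
  have h1 := hq.2.2
  rw [hGood] at h1
  refine ⟨hq.1, ?_, h1.2⟩
  have h2 : lk χ a b * lk χ b q * lk χ q a - lk χ a q * lk χ b a * lk χ q b ≠ 0 := h1.1
  unfold D3
  exact h2

theorem quad_part (hp2 : p ≠ 2) (χ : ∀ j : ℕ, (ZMod j)ˣ →* Multiplicative (ZMod p)) (hχ : Kr χ) (h5 : 5 ≤ p) {a b c : ℕ}
    (ha : a.Prime) (hpa : p ∣ a - 1) (hb : b.Prime) (hpb : p ∣ b - 1) (hc : c.Prime) (hpc : p ∣ c - 1) (hab : a ≠ b)
    (hac : a ≠ c) (hbc : b ≠ c) (hD : D3 χ a b c ≠ 0) :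
    AtLeast p (((p : ℝ) - 1) ^ 5 * ((p : ℝ) - 4) / (2 * (p : ℝ) ^ 6)) fun q₄ =>
      q₄ ≠ a ∧ q₄ ≠ b ∧ q₄ ≠ c ∧ AlwaysFinite p True {a, b, c, q₄} := by
  have h := dens_tame h5 χ hχ a b c ha hb hc hpa hpb hpc hab hac hbc hD
  unfold dlt at h
  refine atLeast_of h fun q hq hpq hG => ⟨hG.1, hG.2.1, hG.2.2.1, ?_⟩
  exact af_quad hp2 χ hχ ⟨ha, hpa⟩ ⟨hb, hpb⟩ ⟨hc, hpc⟩ ⟨hq, hpq⟩ hab hac (Ne.symm hG.1) hbc
    (Ne.symm hG.2.1) (Ne.symm hG.2.2.1) hG.2.2.2

theorem wild_part (hp2 : p ≠ 2) (χ : ∀ j : ℕ, (ZMod j)ˣ →* Multiplicative (ZMod p)) (hχ : Kr χ) (h5 : 5 ≤ p) {a b : ℕ}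
    (ha : a.Prime) (hpa : p ∣ a - 1) (hb : b.Prime) (hpb : p ∣ b - 1) (hab : a ≠ b) (hD : Dt χ a b ≠ 0) :
    AtLeast p (((p : ℝ) - 1) ^ 5 * ((p : ℝ) - 4) / (2 * (p : ℝ) ^ 6)) fun q₃ =>
      q₃ ≠ a ∧ q₃ ≠ b ∧ AlwaysFinite p True {p, a, b, q₃} := by
  have h := dens_wild h5 χ hχ a b ha hb hpa hpb hab hD
  unfold dlt at h
  refine atLeast_of h fun q hq hpq hG => ⟨hG.1, hG.2.1, ?_⟩
  exact af_wild hp2 χ hχ ⟨ha, hpa⟩ ⟨hb, hpb⟩ ⟨hq, hpq⟩ hab (Ne.symm hG.1) (Ne.symm hG.2.1) hG.2.2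

theorem third_part (hp2 : p ≠ 2) (χ : ∀ j : ℕ, (ZMod j)ˣ →* Multiplicative (ZMod p)) (hχ : Kr χ) {a b : ℕ}
    (ha : a.Prime) (hpa : p ∣ a - 1) (hb : b.Prime) (hpb : p ∣ b - 1) (hab : a ≠ b) (h12 : lk χ a b ≠ 0) :
    AtLeast p ((1 - 1 / (p : ℝ)) ^ 2) fun q₃ => q₃ ≠ a ∧ q₃ ≠ b ∧ AlwaysFinite p False {a, b, q₃} ∧
      (5 ≤ p → AtLeast p (((p : ℝ) - 1) ^ 5 * ((p : ℝ) - 4) / (2 * (p : ℝ) ^ 6)) fun q₄ =>
        q₄ ≠ a ∧ q₄ ≠ b ∧ q₄ ≠ q₃ ∧ AlwaysFinite p True {a, b, q₃, q₄}) := by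
  refine atLeast_of (step3 hp2 χ hχ ha hpa hb hpb hab h12) fun c hc hpc hD => ?_
  obtain ⟨hca, hcb⟩ := D3_ne ha hb hD
  exact ⟨hca, hcb, af_triple hp2 χ hχ ⟨ha, hpa⟩ ⟨hb, hpb⟩ ⟨hc, hpc⟩ hab (Ne.symm hca) (Ne.symm hcb) hD, fun h5 =>
    quad_part hp2 χ hχ h5 ha hpa hb hpb hc hpc hab (Ne.symm hca) (Ne.symm hcb) hD⟩

theorem exists_level {a : ℕ} (ha : a.Prime) : ∃ s : ℕ, p ^ s ∣ a - 1 ∧ ¬ p ^ (s + 1) ∣ a - 1 := by
  have hp : p.Prime := Fact.out
  have h0 : a - 1 ≠ 0 := by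
    have := ha.two_le
    omega
  refine ⟨(a - 1).factorization p, Nat.ordProj_dvd _ _, Nat.pow_succ_factorization_not_dvd h0 hp⟩

theorem tower_part (hp2 : p ≠ 2) (χ : ∀ j : ℕ, (ZMod j)ˣ →* Multiplicative (ZMod p)) (hχ : Kr χ) {a b : ℕ}
    (ha : a.Prime) (hpa : p ∣ a - 1) (hb : b.Prime) (hpb : p ∣ b - 1) (hab : a ≠ b) (h12 : lk χ a b ≠ 0) :
    AtLeast p ((1 - 2 / (p : ℝ)) * (1 - 1 / (p : ℝ))) fun q₃ => q₃ ≠ a ∧ q₃ ≠ b ∧ FiniteTower p {a, b, q₃} := by
  have hp : p.Prime := Fact.out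
  obtain ⟨s, hs, hs'⟩ := exists_level (p := p) ha
  have hu : (((a - 1) / p ^ s : ℕ) : ZMod p) ≠ 0 := by
    intro h0
    rw [ZMod.natCast_eq_zero_iff] at h0
    obtain ⟨m, hm⟩ := h0
    apply hs'
    refine ⟨m, ?_⟩
    rw [← Nat.mul_div_cancel' hs, hm, pow_succ, mul_assoc]
  refine atLeast_of (step3' hp2 χ hχ ha hpa hb hpb hab h12 (v := (((b - 1) / p ^ s : ℕ) : ZMod p)) hu)
    fun c hc hpc hD => ?_
  obtain ⟨hca, hcb⟩ := D3_ne ha hb hD.1
  exact ⟨hca, hcb, tower_triple hp2 χ ⟨ha, hpa⟩ ⟨hb, hpb⟩ ⟨hc, hpc⟩ hab (Ne.symm hca) (Ne.symm hcb) hD.1 hs hs' hD.2⟩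

theorem part1 (hp2 : p ≠ 2) (χ : ∀ j : ℕ, (ZMod j)ˣ →* Multiplicative (ZMod p)) (hχ : Kr χ) {a : ℕ}
    (ha : a.Prime) (hpa : p ∣ a - 1) :
    AtLeast p (1 - 1 / (p : ℝ)) fun q₂ => q₂ ≠ a ∧
      (AtLeast p ((1 - 2 / (p : ℝ)) * (1 - 1 / (p : ℝ))) fun q₃ => q₃ ≠ a ∧ q₃ ≠ q₂ ∧ FiniteTower p {a, q₂, q₃}) ∧
      AtLeast p ((1 - 1 / (p : ℝ)) ^ 2) fun q₃ => q₃ ≠ a ∧ q₃ ≠ q₂ ∧ AlwaysFinite p False {a, q₂, q₃} ∧
        (5 ≤ p → AtLeast p (((p : ℝ) - 1) ^ 5 * ((p : ℝ) - 4) / (2 * (p : ℝ) ^ 6)) fun q₄ =>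
          q₄ ≠ a ∧ q₄ ≠ q₂ ∧ q₄ ≠ q₃ ∧ AlwaysFinite p True {a, q₂, q₃, q₄}) := by
  refine atLeast_of (step2 hp2 χ hχ ha hpa) fun b hb hpb hG => ⟨hG.1, ?_, ?_⟩
  · exact tower_part hp2 χ hχ ha hpa hb hpb (Ne.symm hG.1) hG.2
  · exact third_part hp2 χ hχ ha hpa hb hpb (Ne.symm hG.1) hG.2

theorem part2 (hp2 : p ≠ 2) (χ : ∀ j : ℕ, (ZMod j)ˣ →* Multiplicative (ZMod p)) (hχ : Kr χ) {a : ℕ}
    (ha : a.Prime) (hpa : p ∣ a - 1) (hcond : ¬ p ^ 2 ∣ a - 1 ∨ (p : ZMod a) ^ ((a - 1) / p) ≠ 1) :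
    AtLeast p ((1 - 1 / (p : ℝ)) ^ 2) fun q₂ => q₂ ≠ a ∧ AlwaysFinite p False {p, a, q₂} ∧
      (5 ≤ p → AtLeast p (((p : ℝ) - 1) ^ 5 * ((p : ℝ) - 4) / (2 * (p : ℝ) ^ 6)) fun q₃ =>
        q₃ ≠ a ∧ q₃ ≠ q₂ ∧ AlwaysFinite p True {p, a, q₂, q₃}) := by
  have hcd : lv p a ≠ 0 ∨ lk χ p a ≠ 0 := by
    rcases hcond with h | h
    · exact Or.inl (lv_ne_zero hpa h)
    · exact Or.inr (lk_p_ne χ hχ ha hpa h)
  refine atLeast_of (step2' hp2 χ hχ ha hpa hcd) fun b hb hpb hG => ⟨hG.1, ?_, fun h5 => ?_⟩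
  · exact af_pair hp2 χ hχ ⟨ha, hpa⟩ ⟨hb, hpb⟩ (Ne.symm hG.1) hG.2
  · exact wild_part hp2 χ hχ h5 ha hpa hb hpb (Ne.symm hG.1) hG.2

end

/-- **Most tuples of primes.** Let `p` be an odd prime. (1) For every prime `q₁ ≡ 1 mod p` and for a proportion of at least
`1 - 1 / p` of the primes `q₂ ≡ 1 mod p` the following holds: for a proportion of at least `(1 - 2 / p) (1 - 1 / p)` of the primes
`q₃ ≡ 1 mod p` all the fields in question (`FiniteTower`) have finite towers; and for a proportion of at least `(1 - 1 / p) ^ 2` of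
the primes `q₃ ≡ 1 mod p` all the representations in question (`AlwaysFinite`) ramified at the most at `q₁, q₂, q₃` and primes not
congruent to `1` modulo `p`, different from `p`, have finite image; if `p ≥ 5`, then for these `q₁`, `q₂`, `q₃` and for a proportion
of at least `(p - 1) ^ 5 (p - 4) / (2 p ^ 6)` of the primes `q₄` this holds for `q₁, q₂, q₃, q₄` and all the rings whose residue field
has odd degree. (2) The same holds for `p`, `q₁`, `q₂` (for every `q₁` with `p ^ 2 ∤ q₁ - 1` or modulo which `p` is not a `p`-th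
power and for a proportion of at least `(1 - 1 / p) ^ 2` of all `q₂`) and, if `p ≥ 5`, `p`, `q₁`, `q₂`, `q₃`. -/
theorem result (p : ℕ) [Fact p.Prime] (hp2 : p ≠ 2) :
    (∀ q₁ : ℕ, q₁.Prime → p ∣ q₁ - 1 →
      AtLeast p (1 - 1 / p) fun q₂ => q₂ ≠ q₁ ∧
        (AtLeast p ((1 - 2 / p) * (1 - 1 / p)) fun q₃ => q₃ ≠ q₁ ∧ q₃ ≠ q₂ ∧ FiniteTower p {q₁, q₂, q₃}) ∧
        AtLeast p ((1 - 1 / p) ^ 2) fun q₃ => q₃ ≠ q₁ ∧ q₃ ≠ q₂ ∧ AlwaysFinite p False {q₁, q₂, q₃} ∧
          (5 ≤ p → AtLeast p (((p : ℝ) - 1) ^ 5 * ((p : ℝ) - 4) / (2 * (p : ℝ) ^ 6)) fun q₄ =>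
            q₄ ≠ q₁ ∧ q₄ ≠ q₂ ∧ q₄ ≠ q₃ ∧ AlwaysFinite p True {q₁, q₂, q₃, q₄})) ∧
    (∀ q₁ : ℕ, q₁.Prime → p ∣ q₁ - 1 → (¬ p ^ 2 ∣ q₁ - 1 ∨ (p : ZMod q₁) ^ ((q₁ - 1) / p) ≠ 1) →
      AtLeast p ((1 - 1 / p) ^ 2) fun q₂ => q₂ ≠ q₁ ∧ AlwaysFinite p False {p, q₁, q₂} ∧
        (5 ≤ p → AtLeast p (((p : ℝ) - 1) ^ 5 * ((p : ℝ) - 4) / (2 * (p : ℝ) ^ 6)) fun q₃ =>
          q₃ ≠ q₁ ∧ q₃ ≠ q₂ ∧ AlwaysFinite p True {p, q₁, q₂, q₃})) := by
  obtain ⟨χ, hχ⟩ := Pool.Agent.TH146.FM.exists_chi p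
  exact ⟨fun a ha hpa => part1 hp2 χ hχ ha hpa, fun a ha hpa hcond => part2 hp2 χ hχ ha hpa hcond⟩

end Pool.Agent.Results.MP_ca71b5_nt.MostTuples
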