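import Pool.Agent.L5helper61.WF.All
import Pool.Agent.L5helper79.TR.Main

/-!
# The weak unramified Fontaine-Mazur conjecture: reduction to totally odd self-dual representations of
totally real fields and of CM fields

Question Q1 is about all number fields `K` and all continuous representations of `G_K` over `ℤ_p`
which are unramified at all finite primes and have pro-`p` image. The methods that are available
(automorphy lifting) apply to totally real fields and CM fields, and to totally odd self-dual
representations. We show that this is the general case.  Fix a prime `p`, a number field `K₀` and a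
finite set `T` of prime numbers. Call a totally real field `F`, Galois over `ℚ`, good, if
`K₀ F / F` is unramified at all finite primes and completely split at all primes above `T`. Then the
following are equivalent:

* Q1 for `p`;
* for all good `F` and all `m`, every continuous representation `ρ : G_F → Sp_{2m}(ℤ_p)`, unramified
  at all finite primes, with `tr ρ(c) = 0` for all complex conjugations `c`, has finite image;
* for all good `F` and all `n`, every continuous representation of the absolute Galois group of the CM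
  field `F(√-1)` to `GL_n(ℤ_p)`, unramified at all finite primes, which is conjugate self-dual with a
  symmetric pairing (totally odd polarized), has finite image.

Proof.  Let `L` be a finite Galois extension of `ℚ` which contains `K`, `K₀` and `√-1`.  Let `f` be
the minimal polynomial of an integral generator of `L`.  We perturb `f` to a monic integral
polynomial `g` with `g ≡ f` modulo a high power of a number `Δ` which is divisible by the
differences of the roots of `f` and by the primes in `T`, such that `g` has only real roots: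
`g(x) = f(x) + Δ^e h(x)`, where `h` is an approximation of a polynomial with real simple roots
which are far from each other. Let `F` be the splitting field of `g`. By Krasner's lemma (for the
valuations of the ring of all algebraic integers), the inertia groups of `F` and its decomposition
groups above `T` are contained in `G_L`.  So the representation of `G_F` induced by the restriction
of `ρ` to `G_{LF}` is unramified; the complex conjugations have trace zero because they fix no
coset; and `σ ⊕ σ^∨` is symplectic and orthogonal.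
-/

set_option autoImplicit false

open NumberField IsLocalRing

attribute [-instance] DivisionRing.toRatAlgebra

namespace Pool.Agent.Results.MP_ca71b5_nt.TotallyRealFields

/-- the absolute Galois group of the field `F`, with the Krull topology -/
abbrev AbsGal (F : Type) [Field F] : Type := Gal(AlgebraicClosure F/F)

/-- the ring of all algebraic integers -/
abbrev ZBar : Type := 𝓞 (AlgebraicClosure ℚ)

/-- `τ` lies in the inertia group at `P` -/
def Inertia (P : Ideal ZBar) (τ : AbsGal ℚ) : Prop := ∀ x : ZBar, τ • x - x ∈ P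

/-- `τ` lies in the decomposition group at `P` -/
def Decomposition (P : Ideal ZBar) (τ : AbsGal ℚ) : Prop := ∀ x : ZBar, τ • x ∈ P ↔ x ∈ P

/-- The homomorphism `f` from the absolute Galois group of `K` is unramified at all finite primes: it
is trivial on all inertia groups. -/
def Unramified (K : IntermediateField ℚ (AlgebraicClosure ℚ)) {E : Type} [Group E]
    (f : K.fixingSubgroup →* E) : Prop :=
  ∀ P : Ideal ZBar, P.IsMaximal → ∀ τ : K.fixingSubgroup, Inertia P τ → f τ = 1

/-- The image of `f` is a pro-`p` group: the open subgroups of the absolute Galois group of `K` that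
contain the kernel of `f` have `p`-power index. -/
def ProPImage (p : ℕ) (K : IntermediateField ℚ (AlgebraicClosure ℚ)) {E : Type} [Group E]
    (f : K.fixingSubgroup →* E) : Prop :=
  ∀ V : Subgroup K.fixingSubgroup, IsOpen (V : Set K.fixingSubgroup) → f.ker ≤ V →
    ∃ k, V.index = p ^ k

/-- Q1 for the prime `p`: for all number fields `K` and all `n`, every continuous representation of
the absolute Galois group of `K` over `ℤ_p`, unramified at all finite primes and with pro-`p` image,
has finite image. -/
def WeakFontaineMazur (p : ℕ) [Fact p.Prime] : Prop :=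
  ∀ K : IntermediateField ℚ (AlgebraicClosure ℚ), FiniteDimensional ℚ K →
    ∀ (n : ℕ) (ρ : K.fixingSubgroup →* GL (Fin n) ℤ_[p]), Continuous ρ → Unramified K ρ →
      ProPImage p K ρ → (Set.range ρ).Finite

/-- `c` is a complex conjugation, for some embedding `ι` of the field of algebraic numbers -/
def ComplexConjugation (c : AbsGal ℚ) : Prop :=
  ∃ ι : AlgebraicClosure ℚ →+* ℂ, ∀ x, ι (c x) = starRingEnd ℂ (ι x)

/-- `F` is a totally real number field, Galois over `ℚ`, such that `K₀ F / F` is unramified at all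
finite primes and completely split at all primes above `T`: the inertia groups of `F`, and its
decomposition groups above the primes in `T`, fix `K₀`. -/
def Good (K₀ : IntermediateField ℚ (AlgebraicClosure ℚ)) (T : Finset ℕ)
    (F : IntermediateField ℚ (AlgebraicClosure ℚ)) : Prop :=
  FiniteDimensional ℚ F ∧ IsGalois ℚ F ∧ IsTotallyReal F ∧
    ∀ P : Ideal ZBar, P.IsMaximal → ∀ τ ∈ F.fixingSubgroup,
      (Inertia P τ ∨ (Decomposition P τ ∧ ∃ l ∈ T, (l : ZBar) ∈ P)) → τ ∈ K₀.fixingSubgroup

/-- For all good fields `F`, every continuous representation `G_F → Sp_{2m}(ℤ_p)`, unramified at all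
finite primes, such that all complex conjugations have trace zero, has finite image. -/
def OddSymplectic (p : ℕ) [Fact p.Prime] (K₀ : IntermediateField ℚ (AlgebraicClosure ℚ))
    (T : Finset ℕ) : Prop :=
  ∀ F : IntermediateField ℚ (AlgebraicClosure ℚ), Good K₀ T F →
    ∀ (m : ℕ) (ρ : F.fixingSubgroup →* Matrix.symplecticGroup (Fin m) ℤ_[p]), Continuous ρ →
      Unramified F ρ →
      (∀ c : F.fixingSubgroup, ComplexConjugation c →
        Matrix.trace (ρ c : Matrix (Fin m ⊕ Fin m) (Fin m ⊕ Fin m) ℤ_[p]) = 0) →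
      (Set.range ρ).Finite

/-- The representation `ρ` of the absolute Galois group of `E` is totally odd polarized: for every
complex conjugation `c` there is an invertible symmetric matrix `X` with
`ρ(g)ᵀ X ρ(c g c⁻¹) = X` for all `g`. -/
def OddPolarized (p : ℕ) [Fact p.Prime] (E : IntermediateField ℚ (AlgebraicClosure ℚ)) {n : ℕ}
    (ρ : E.fixingSubgroup →* GL (Fin n) ℤ_[p]) : Prop :=
  ∀ c : AbsGal ℚ, ComplexConjugation c → ∃ X : GL (Fin n) ℤ_[p], X.val.transpose = X.val ∧
    ∀ g h : E.fixingSubgroup, (h : AbsGal ℚ) = c * g * c⁻¹ →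
      (ρ g).val.transpose * X.val * (ρ h).val = X.val

/-- For all good fields `F` and the CM field `E = F(√-1)`, every continuous totally odd polarized
representation `G_E → GL_n(ℤ_p)`, unramified at all finite primes, has finite image. -/
def PolarizedCM (p : ℕ) [Fact p.Prime] (K₀ : IntermediateField ℚ (AlgebraicClosure ℚ))
    (T : Finset ℕ) : Prop :=
  ∀ F : IntermediateField ℚ (AlgebraicClosure ℚ), Good K₀ T F →
    ∀ i : AlgebraicClosure ℚ, i ^ 2 = -1 →
    ∀ (n : ℕ) (ρ : (F ⊔ IntermediateField.adjoin ℚ {i} : IntermediateField ℚ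
      (AlgebraicClosure ℚ)).fixingSubgroup →* GL (Fin n) ℤ_[p]), Continuous ρ →
      Unramified (F ⊔ IntermediateField.adjoin ℚ {i}) ρ →
      OddPolarized p (F ⊔ IntermediateField.adjoin ℚ {i}) ρ → (Set.range ρ).Finite

lemma finite_of_weak (p : ℕ) [Fact p.Prime] (h : WeakFontaineMazur p)
    (K : IntermediateField ℚ (AlgebraicClosure ℚ)) [FiniteDimensional ℚ K] (n : ℕ)
    (ρ : K.fixingSubgroup →* GL (Fin n) ℤ_[p]) (hρ : Continuous ρ) (hU : Unramified K ρ) :
    (Set.range ρ).Finite := by
  have hfin : Finite (ResidueField ℤ_[p]) := by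
    have e : ResidueField ℤ_[p] ≃+* ZMod p := PadicInt.residueField
    exact Finite.of_equiv _ e.symm.toEquiv
  have hp : (p : ℤ_[p]) ∈ maximalIdeal ℤ_[p] := by
    rw [PadicInt.maximalIdeal_eq_span_p]
    exact Ideal.mem_span_singleton_self _
  have h1 := Pool.Agent.L5helper61.WF.main_all (p := p) h K ℤ_[p]
    (Pool.Agent.L5helper61.WF.isAdic_zp p) hfin hp n ρ hρ hU
  refine Pool.Agent.L5helper61.WF.fin_of_nzd (Pool.Agent.L5helper61.WF.inj_away ?_) h1
  rw [mem_nonZeroDivisors_iff_ne_zero]
  exact_mod_cast (Fact.out : p.Prime).ne_zero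

/-- conjugation of inertia groups -/
lemma inertia_conj {P : Ideal ZBar} (hP : P.IsMaximal) (g : AbsGal ℚ) {τ : AbsGal ℚ}
    (h : Inertia P τ) : ∃ P' : Ideal ZBar, P'.IsMaximal ∧ Inertia P' (g⁻¹ * τ * g) := by
  let e : ZBar ≃+* ZBar := MulSemiringAction.toRingEquiv (AbsGal ℚ) ZBar g
  refine ⟨P.comap (e : ZBar →+* ZBar), Ideal.comap_isMaximal_of_equiv e, ?_⟩
  intro x
  rw [Ideal.mem_comap]
  change g • ((g⁻¹ * τ * g) • x - x) ∈ P
  have h1 : g • ((g⁻¹ * τ * g) • x - x) = τ • (g • x) - g • x := by
    rw [smul_sub, ← mul_smul, ← mul_smul]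
    congr 2
    group
  rw [h1]
  exact h _

lemma finite_symp {A G : Type} [CommRing A] [Group G] {m n : ℕ} (e : Fin m ⊕ Fin m ≃ Fin n)
    (ρ : G →* Matrix.symplecticGroup (Fin m) A) (σ : G →* GL (Fin n) A)
    (hσ : ∀ g, (σ g).val = ((ρ g : Matrix.symplecticGroup (Fin m) A) :
      Matrix (Fin m ⊕ Fin m) (Fin m ⊕ Fin m) A).submatrix e.symm e.symm)
    (h : (Set.range σ).Finite) : (Set.range ρ).Finite := by
  let F : GL (Fin n) A → Matrix (Fin m ⊕ Fin m) (Fin m ⊕ Fin m) A := fun M =>
    M.val.submatrix e e
  have h1 : (Set.range fun g => ((ρ g : Matrix.symplecticGroup (Fin m) A) :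
      Matrix (Fin m ⊕ Fin m) (Fin m ⊕ Fin m) A)).Finite := by
    refine (h.image F).subset ?_
    rintro _ ⟨g, rfl⟩
    refine ⟨σ g, ⟨g, rfl⟩, ?_⟩
    change (σ g).val.submatrix e e = _
    rw [hσ, Matrix.submatrix_submatrix]
    simp
  refine Set.Finite.of_finite_image (f := fun M : Matrix.symplecticGroup (Fin m) A =>
    (M : Matrix (Fin m ⊕ Fin m) (Fin m ⊕ Fin m) A)) ?_ (fun a _ b _ hab => Subtype.ext hab)
  rw [← Set.range_comp]
  exact h1

lemma mem_of_totallyReal {F : IntermediateField ℚ (AlgebraicClosure ℚ)} (hF : IsTotallyReal F)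
    {c : AbsGal ℚ} (hc : ComplexConjugation c) : c ∈ F.fixingSubgroup := by
  obtain ⟨ι, hι⟩ := hc
  rw [IntermediateField.mem_fixingSubgroup_iff]
  intro x hx
  apply ι.injective
  rw [hι]
  have h1 := hF.complexEmbedding_isReal (ι.comp (algebraMap F (AlgebraicClosure ℚ)))
  rw [ComplexEmbedding.isReal_iff] at h1
  exact RingHom.congr_fun h1 ⟨x, hx⟩

lemma sq_conj {c : AbsGal ℚ} (hc : ComplexConjugation c) : c * c = 1 := by
  obtain ⟨ι, hι⟩ := hc
  ext x
  apply ι.injective
  change ι (c (c x)) = ι x
  rw [hι, hι, Complex.conj_conj]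

/-- good fields from the reduction theorem -/
lemma exists_good (K K₀ : IntermediateField ℚ (AlgebraicClosure ℚ)) [FiniteDimensional ℚ K]
    [FiniteDimensional ℚ K₀] (T : Finset ℕ) (hT : ∀ l ∈ T, l.Prime) (p : ℕ) [Fact p.Prime]
    (n : ℕ) (ρ : K.fixingSubgroup →* GL (Fin n) ℤ_[p]) (hρ : Continuous ρ)
    (hU : Unramified K ρ) :
    ∃ F : IntermediateField ℚ (AlgebraicClosure ℚ), Good K₀ T F ∧
      ∃ (m : ℕ) (ρ' : F.fixingSubgroup →* Matrix.symplecticGroup (Fin m) ℤ_[p]),
        Continuous ρ' ∧ Unramified F ρ' ∧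
        (∀ c : F.fixingSubgroup, ComplexConjugation c →
          Matrix.trace (ρ' c : Matrix (Fin m ⊕ Fin m) (Fin m ⊕ Fin m) ℤ_[p]) = 0) ∧
        (∀ g : F.fixingSubgroup,
          (ρ' g : Matrix (Fin m ⊕ Fin m) (Fin m ⊕ Fin m) ℤ_[p]).transpose *
          Pool.Agent.L5helper79.TR.symMat ℤ_[p] m *
          (ρ' g : Matrix (Fin m ⊕ Fin m) (Fin m ⊕ Fin m) ℤ_[p]) =
          Pool.Agent.L5helper79.TR.symMat ℤ_[p] m) ∧
        ((Set.range ρ').Finite → (Set.range ρ).Finite) := by
  have ht : ∏ l ∈ T, l ≠ 0 := Finset.prod_ne_zero_iff.2 fun l hl => (hT l hl).ne_zero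
  obtain ⟨F, hfin, hgal, hreal, hF, hred⟩ :=
    Pool.Agent.L5helper79.TR.reduction K K₀ (∏ l ∈ T, l) ht
  obtain ⟨m, ρ', hcont, htr, hsym, hf, hT'⟩ := hred ℤ_[p] n ρ hρ
  refine ⟨F, ⟨hfin, hgal, hreal, ?_⟩, m, ρ', hcont, ?_, htr, hsym, hf⟩
  · intro P hP τ hτ h
    refine hF P hP.isPrime τ ?_ hτ
    rcases h with h | ⟨h1, l, hl, hlP⟩
    · exact Or.inl h
    · refine Or.inr ⟨h1, ?_⟩
      obtain ⟨u, hu⟩ := Finset.dvd_prod_of_mem (fun l => l) hl
      have hu' : ∏ l ∈ T, l = l * u := hu
      rw [hu']
      push_cast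
      exact P.mul_mem_right _ hlP
  · intro P hP τ hτ
    refine hT' {σ | ∃ Q : Ideal ZBar, Q.IsMaximal ∧ Inertia Q σ} ?_ ?_ ?_ τ ⟨P, hP, hτ⟩
    · rintro σ ⟨Q, hQ, hσ⟩
      exact ⟨Q, hQ.isPrime, hσ⟩
    · rintro g _ σ ⟨Q, hQ, hσ⟩
      exact inertia_conj hQ g hσ
    · rintro σ ⟨Q, hQ, hσ⟩
      exact hU Q hQ σ hσ

theorem result (p : ℕ) [Fact p.Prime] (K₀ : IntermediateField ℚ (AlgebraicClosure ℚ))
    [FiniteDimensional ℚ K₀] (T : Finset ℕ) (hT : ∀ l ∈ T, l.Prime) :
    List.TFAE [WeakFontaineMazur p, OddSymplectic p K₀ T, PolarizedCM p K₀ T] := by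
  tfae_have 1 → 2 := by
    intro h F hF m ρ hρ hU _
    have hfin : FiniteDimensional ℚ F := hF.1
    obtain ⟨σ, hσ, hval⟩ := Pool.Agent.L5helper79.TR.exists_toGL
      (finSumFinEquiv : Fin m ⊕ Fin m ≃ Fin (m + m))
      ((Matrix.symplecticGroup (Fin m) ℤ_[p]).subtype.comp ρ) (continuous_subtype_val.comp hρ)
    refine finite_symp finSumFinEquiv ρ σ hval (finite_of_weak p h F (m + m) σ hσ ?_)
    intro P hP τ hτ
    apply Units.ext
    rw [hval]
    change ((ρ τ : Matrix.symplecticGroup (Fin m) ℤ_[p]) :
      Matrix (Fin m ⊕ Fin m) (Fin m ⊕ Fin m) ℤ_[p]).submatrix _ _ = 1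
    rw [hU P hP τ hτ]
    change (1 : Matrix (Fin m ⊕ Fin m) (Fin m ⊕ Fin m) ℤ_[p]).submatrix _ _ = 1
    exact Matrix.submatrix_one_equiv _
  tfae_have 1 → 3 := by
    intro h F hF i hi n ρ hρ hU _
    have hfin : FiniteDimensional ℚ F := hF.1
    have hfi : FiniteDimensional ℚ (IntermediateField.adjoin ℚ {i}) :=
      IntermediateField.adjoin.finiteDimensional (Algebra.IsIntegral.isIntegral i)
    have hE : FiniteDimensional ℚ (F ⊔ IntermediateField.adjoin ℚ {i} :
      IntermediateField ℚ (AlgebraicClosure ℚ)) := IntermediateField.finiteDimensional_sup _ _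
    exact finite_of_weak p h _ n ρ hρ hU
  tfae_have 2 → 1 := by
    intro h K hK n ρ hρ hU _
    obtain ⟨F, hgood, m, ρ', hcont, hunr, htr, _, hf⟩ := exists_good K K₀ T hT p n ρ hρ hU
    exact hf (h F hgood m ρ' hcont hunr htr)
  tfae_have 3 → 1 := by
    intro h K hK n ρ hρ hU _
    obtain ⟨F, hgood, m, ρ', hcont, hunr, htr, hsym, hf⟩ := exists_good K K₀ T hT p n ρ hρ hU
    obtain ⟨i, hi⟩ : ∃ y : AlgebraicClosure ℚ, y ^ 2 = -1 :=
      IsAlgClosed.exists_pow_nat_eq (-1) (by norm_num)
    have hfin : FiniteDimensional ℚ F := hgood.1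
    have hfi : FiniteDimensional ℚ (IntermediateField.adjoin ℚ {i}) :=
      IntermediateField.adjoin.finiteDimensional (Algebra.IsIntegral.isIntegral i)
    obtain ⟨E, hE⟩ : ∃ E : IntermediateField ℚ (AlgebraicClosure ℚ),
      E = F ⊔ IntermediateField.adjoin ℚ {i} := ⟨_, rfl⟩
    have hEfin : FiniteDimensional ℚ E := by
      rw [hE]
      exact IntermediateField.finiteDimensional_sup _ _
    have hle : E.fixingSubgroup ≤ F.fixingSubgroup := by
      rw [hE]
      exact IntermediateField.fixingSubgroup_le le_sup_left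
    have hincl : Continuous (Subgroup.inclusion hle) :=
      Continuous.subtype_mk continuous_subtype_val _
    obtain ⟨σ, hσ, hval⟩ := Pool.Agent.L5helper79.TR.exists_toGL
      (finSumFinEquiv : Fin m ⊕ Fin m ≃ Fin (m + m))
      ((Matrix.symplecticGroup (Fin m) ℤ_[p]).subtype.comp (ρ'.comp (Subgroup.inclusion hle)))
      (continuous_subtype_val.comp (hcont.comp hincl))
    have hσU : Unramified E σ := by
      intro P hP τ hτ
      apply Units.ext
      rw [hval]
      change ((ρ' (Subgroup.inclusion hle τ) : Matrix.symplecticGroup (Fin m) ℤ_[p]) :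
        Matrix (Fin m ⊕ Fin m) (Fin m ⊕ Fin m) ℤ_[p]).submatrix _ _ = 1
      rw [hunr P hP (Subgroup.inclusion hle τ) hτ]
      change (1 : Matrix (Fin m ⊕ Fin m) (Fin m ⊕ Fin m) ℤ_[p]).submatrix _ _ = 1
      exact Matrix.submatrix_one_equiv _
    have hσP : OddPolarized p E σ := by
      intro c hc
      have hcF := mem_of_totallyReal hgood.2.2.1 hc
      obtain ⟨c', hc'⟩ : ∃ c' : F.fixingSubgroup, c' = ⟨c, hcF⟩ := ⟨_, rfl⟩
      have hcc : c' * c' = 1 := by
        rw [hc']
        exact Subtype.ext (sq_conj hc)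
      obtain ⟨R, hR⟩ : ∃ R : F.fixingSubgroup →* Matrix (Fin m ⊕ Fin m) (Fin m ⊕ Fin m) ℤ_[p],
        R = (Matrix.symplecticGroup (Fin m) ℤ_[p]).subtype.comp ρ' := ⟨_, rfl⟩
      obtain ⟨B, hB⟩ : ∃ B, B = Pool.Agent.L5helper79.TR.symMat ℤ_[p] m := ⟨_, rfl⟩
      have hBB : B * B = 1 := by
        rw [hB, Pool.Agent.L5helper79.TR.symMat, Matrix.fromBlocks_multiply]
        simp
      have hBT : B.transpose = B := by
        rw [hB, Pool.Agent.L5helper79.TR.symMat, Matrix.fromBlocks_transpose]
        simp
      have hRsym : ∀ g, (R g).transpose * B * R g = B := by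
        intro g
        rw [hR, hB]
        exact hsym g
      have hCC : R c' * R c' = 1 := by rw [← map_mul, hcc, map_one]
      have hsub : ∀ M M' : Matrix (Fin m ⊕ Fin m) (Fin m ⊕ Fin m) ℤ_[p],
          M.submatrix (finSumFinEquiv : Fin m ⊕ Fin m ≃ Fin (m + m)).symm finSumFinEquiv.symm *
          M'.submatrix finSumFinEquiv.symm finSumFinEquiv.symm =
          (M * M').submatrix finSumFinEquiv.symm finSumFinEquiv.symm := fun M M' =>
        (Matrix.submatrix_mul_equiv M M' _ finSumFinEquiv.symm _)
      refine ⟨⟨(B * R c').submatrix (finSumFinEquiv : Fin m ⊕ Fin m ≃ Fin (m + m)).symm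
        finSumFinEquiv.symm, (R c' * B).submatrix finSumFinEquiv.symm finSumFinEquiv.symm,
        ?_, ?_⟩, ?_, ?_⟩
      · rw [hsub]
        have h1 : B * R c' * (R c' * B) = 1 := by
          calc B * R c' * (R c' * B) = B * (R c' * R c') * B := by
                simp only [Matrix.mul_assoc]
            _ = 1 := by rw [hCC, mul_one, hBB]
        rw [h1]
        exact Matrix.submatrix_one_equiv _
      · rw [hsub]
        have h1 : R c' * B * (B * R c') = 1 := by
          calc R c' * B * (B * R c') = R c' * (B * B) * R c' := by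
                simp only [Matrix.mul_assoc]
            _ = 1 := by rw [hBB, mul_one, hCC]
        rw [h1]
        exact Matrix.submatrix_one_equiv _
      · change ((B * R c').submatrix _ _).transpose = (B * R c').submatrix _ _
        rw [Matrix.transpose_submatrix, Matrix.transpose_mul, hBT]
        congr 1
        calc (R c').transpose * B = (R c').transpose * B * (R c' * R c') := by
              rw [hCC, mul_one]
          _ = ((R c').transpose * B * R c') * R c' := by simp only [Matrix.mul_assoc]
          _ = B * R c' := by rw [hRsym]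
      · intro g h hh
        have h1 : Subgroup.inclusion hle h = c' * Subgroup.inclusion hle g * c'⁻¹ := by
          apply Subtype.ext
          rw [hc']
          exact hh
        have h2 : c'⁻¹ = c' := inv_eq_of_mul_eq_one_right hcc
        have h3 : R c' * R (Subgroup.inclusion hle h) = R (Subgroup.inclusion hle g) * R c' := by
          rw [← map_mul, ← map_mul, h1, h2]
          congr 1
          rw [← mul_assoc, ← mul_assoc, hcc, one_mul]
        have hg1 : (σ g).val = (R (Subgroup.inclusion hle g)).submatrix finSumFinEquiv.symm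
            finSumFinEquiv.symm := by
          rw [hval, hR]
          rfl
        have hh1 : (σ h).val = (R (Subgroup.inclusion hle h)).submatrix finSumFinEquiv.symm
            finSumFinEquiv.symm := by
          rw [hval, hR]
          rfl
        change (σ g).val.transpose * (B * R c').submatrix _ _ * (σ h).val =
          (B * R c').submatrix _ _
        rw [hg1, hh1, Matrix.transpose_submatrix, hsub, hsub]
        congr 1
        calc (R (Subgroup.inclusion hle g)).transpose * (B * R c') * R (Subgroup.inclusion hle h) =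
            (R (Subgroup.inclusion hle g)).transpose * B *
              (R c' * R (Subgroup.inclusion hle h)) := by simp only [Matrix.mul_assoc]
          _ = ((R (Subgroup.inclusion hle g)).transpose * B * R (Subgroup.inclusion hle g)) *
              R c' := by rw [h3]; simp only [Matrix.mul_assoc]
          _ = B * R c' := by rw [hRsym]
    have h1 : (Set.range σ).Finite := by
      subst hE
      exact h F hgood i hi _ σ hσ hσU hσP
    have h2 := finite_symp finSumFinEquiv (ρ'.comp (Subgroup.inclusion hle)) σ hval h1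
    have h3 := Pool.Agent.L5helper79.TR.finiteIndex E
    have h4 : (Set.range ρ').Finite := by
      have h5 : (E.fixingSubgroup.subgroupOf F.fixingSubgroup).FiniteIndex := inferInstance
      refine Pool.Agent.L5helper79.TR.finite_range_of_restrict
        (E.fixingSubgroup.subgroupOf F.fixingSubgroup) ρ' (h2.subset ?_)
      rintro _ ⟨x, rfl⟩
      exact ⟨⟨x.1.1, x.2⟩, rfl⟩
    exact hf h4
  tfae_finish

end Pool.Agent.Results.MP_ca71b5_nt.TotallyRealFields
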